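import Pool.Agent.helper75.EM.Arc

/-! Exact correction: a function which is exactly singular along all the arcs. -/

set_option autoImplicit false

namespace Pool.Agent.helper75.EM

open Polynomial

/-- the section `t ↦ s` -/
noncomputable abbrev ι : ℚ[X] →ₐ[ℚ] S := Polynomial.aeval s

/-- the ideal of an arc -/
noncomputable abbrev K (γ : Fin 9 → ℚ[X]) : Ideal S :=
  RingHom.ker (MvPolynomial.aeval γ : S →ₐ[ℚ] ℚ[X])

theorem φι (γ : Fin 9 → ℚ[X]) (h : ∑ i, γ i = -X) (q : ℚ[X]) :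
    MvPolynomial.aeval γ (ι q) = q := by
  rw [← Polynomial.aeval_algHom_apply, aeval_s γ h, aeval_X_left_apply]

theorem y_mem (γ : Fin 9 → ℚ[X]) (h : ∑ i, γ i = -X) (i : Fin 9) :
    MvPolynomial.X i - ι (γ i) ∈ K γ := by
  rw [RingHom.mem_ker, map_sub, MvPolynomial.aeval_X, φι γ h, sub_self]

/-- Taylor expansion modulo the square of the ideal of the arc -/
theorem taylor_arc (γ : Fin 9 → ℚ[X]) (h : ∑ i, γ i = -X) (g : S) :
    g - ι (MvPolynomial.aeval γ g)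
      - ∑ j, ι (MvPolynomial.aeval γ (MvPolynomial.pderiv j g))
        * (MvPolynomial.X j - ι (γ j)) ∈ K γ ^ 2 := by
  have h1 := taylor (K γ) (fun i => ι (γ i)) (fun i => (MvPolynomial.X i : S))
    (fun i => y_mem γ h i) g
  have h2 : ∀ g : S, MvPolynomial.aeval (fun i => ι (γ i)) g = ι (MvPolynomial.aeval γ g) := by
    intro g
    have : (MvPolynomial.aeval (fun i => ι (γ i)) : S →ₐ[ℚ] S)
        = ι.comp (MvPolynomial.aeval γ) := by
      refine MvPolynomial.algHom_ext fun i => ?_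
      simp
    rw [this]; rfl
  have h3 : MvPolynomial.aeval (fun i => (MvPolynomial.X i : S)) g = g :=
    MvPolynomial.aeval_X_left_apply g
  rw [h3, h2] at h1
  simp only [h2] at h1
  exact h1

theorem ι_mem (k : ℕ) (q : ℚ[X]) : ι (X ^ k * q) ∈ p0 ^ k := by
  rw [map_mul, map_pow, aeval_X]
  exact Ideal.mul_mem_right _ _ (Ideal.pow_mem_pow s_mem k)

theorem constantCoeff_ι (q : ℚ[X]) : MvPolynomial.constantCoeff (ι q) = q.coeff 0 := by
  have h1 : MvPolynomial.constantCoeff (ι (C (q.coeff 0))) = q.coeff 0 := by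
    simp [MvPolynomial.algebraMap_eq]
  obtain ⟨r, hr⟩ : X ∣ q - C (q.coeff 0) := by rw [X_dvd_iff]; simp
  have h2 : MvPolynomial.constantCoeff (ι (q - C (q.coeff 0))) = 0 := by
    have := ι_mem 1 r
    rw [pow_one, pow_one, ← hr, RingHom.mem_ker] at this
    exact this
  rw [map_sub, map_sub, h1, sub_eq_zero] at h2
  exact h2

/-- a separator with large order along its own arc -/
theorem exists_b (γ : Γ → Fin 9 → ℚ[X]) (hγ : IsArc γ) :
    ∃ (b : Γ → S) (u : Γ → ℚ[X]), (∀ T, (u T).coeff 0 ≠ 0) ∧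
      (∀ T, MvPolynomial.aeval (γ T) (b T) = X ^ (Fintype.card Γ - 1) * u T) ∧
      (∀ T T', T' ≠ T → b T ∈ K (γ T')) := by
  have h1 : ∀ T T' : Γ, T ≠ T' → ∃ i, pt T.1 i ≠ pt T'.1 i := by
    intro T T' hne
    by_contra hcon
    push Not at hcon
    refine hne (Subtype.ext (Finset.ext fun i => ?_))
    have := hcon i
    unfold pt at this
    by_cases h1 : i ∈ T.1 <;> by_cases h2 : i ∈ T'.1
    · simp [h1, h2]
    · rw [if_pos h1, if_neg h2] at this; norm_num at this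
    · rw [if_neg h1, if_pos h2] at this; norm_num at this
    · simp [h1, h2]
  choose! i hi using h1
  have h2 : ∀ T T' : Γ, T ≠ T' → ∃ q : ℚ[X],
      γ T (i T T') - γ T' (i T T') = X * q ∧ q.coeff 0 ≠ 0 := by
    intro T T' hne
    obtain ⟨q, hq⟩ : X ∣ γ T (i T T') - γ T' (i T T') := by
      rw [X_dvd_iff]; simp [hγ.c0]
    refine ⟨q, hq, ?_⟩
    have h3 := congrArg (fun p => p.coeff 1) hq
    simp only [coeff_sub, hγ.c1] at h3
    rw [show (1 : ℕ) = 0 + 1 by norm_num, coeff_X_mul] at h3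
    rw [← h3]
    exact sub_ne_zero.2 (hi T T' hne)
  choose! q hq hq0 using h2
  refine ⟨fun T => ∏ T' ∈ Finset.univ.erase T, (MvPolynomial.X (i T T') - ι (γ T' (i T T'))),
    fun T => ∏ T' ∈ Finset.univ.erase T, q T T', ?_, ?_, ?_⟩
  · intro T
    rw [coeff_zero_eq_eval_zero, eval_prod, Finset.prod_ne_zero_iff]
    intro T' hT'
    rw [← coeff_zero_eq_eval_zero]
    exact hq0 T T' (Finset.ne_of_mem_erase hT').symm
  · intro T
    simp only [map_prod, map_sub, MvPolynomial.aeval_X, φι (γ T) (hγ.sum T)]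
    rw [Finset.prod_congr rfl (fun T' hT' => hq T T' (Finset.ne_of_mem_erase hT').symm),
      Finset.prod_mul_distrib, Finset.prod_const, Finset.card_erase_of_mem (Finset.mem_univ T),
      Finset.card_univ]
  · intro T T' hne
    exact Ideal.mem_of_dvd _ (Finset.dvd_prod_of_mem _
      (Finset.mem_erase.2 ⟨hne, Finset.mem_univ T'⟩)) (y_mem (γ T') (hγ.sum T') _)

/-- local correction along one arc -/
theorem local_corr (γ : Fin 9 → ℚ[X]) (hs : ∑ i, γ i = -X) (f b : S) (m : ℕ) (u v : ℚ[X])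
    (hb : MvPolynomial.aeval γ b = X ^ m * u)
    (hf : X ^ (4 * m + 5) ∣ (MvPolynomial.aeval γ f : ℚ[X]))
    (hd : ∀ i, X ^ (4 * m + 5) ∣ (MvPolynomial.aeval γ (MvPolynomial.pderiv i f) : ℚ[X])) :
    ∃ J ∈ p0 ^ 5, ι (v * u ^ 4) * f - b ^ 2 * J ∈ K γ ^ 2 := by
  obtain ⟨a, ha⟩ := hf
  choose d hd' using hd
  let β : Fin 9 → ℚ[X] := fun i => MvPolynomial.aeval γ (MvPolynomial.pderiv i (b ^ 2))
  let j0 : ℚ[X] := X ^ 5 * (v * u ^ 2 * X ^ (2 * m) * a)
  let j : Fin 9 → ℚ[X] := fun i => X ^ 5 * (v * u ^ 2 * X ^ (2 * m) * d i - β i * v * a)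
  have hB : MvPolynomial.aeval γ (b ^ 2) = X ^ (2 * m) * u ^ 2 := by
    rw [map_pow, hb]; ring
  have tf := taylor_arc γ hs f
  have tB := taylor_arc γ hs (b ^ 2)
  rw [ha] at tf
  simp only [hd'] at tf
  rw [hB] at tB
  let y : Fin 9 → S := fun i => MvPolynomial.X i - ι (γ i)
  have hy : ∀ i, y i ∈ K γ := fun i => y_mem γ hs i
  let J : S := ι j0 + ∑ i, ι (j i) * y i
  have hJ : J ∈ p0 ^ 5 :=
    add_mem (ι_mem 5 _) (Ideal.sum_mem _ fun i _ => Ideal.mul_mem_right _ _ (ι_mem 5 _))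
  refine ⟨J, hJ, ?_⟩
  -- names for the Taylor polynomials
  let Tf : S := ι (X ^ (4 * m + 5) * a) + ∑ i, ι (X ^ (4 * m + 5) * d i) * y i
  let TB : S := ι (X ^ (2 * m) * u ^ 2) + ∑ i, ι (β i) * y i
  have tf' : f - Tf ∈ K γ ^ 2 := by
    have : f - Tf = f - ι (X ^ (4 * m + 5) * a)
        - ∑ i, ι (X ^ (4 * m + 5) * d i) * (MvPolynomial.X i - ι (γ i)) := by
      simp only [Tf, y]; ring
    rw [this]; exact tf
  have tB' : b ^ 2 - TB ∈ K γ ^ 2 := by
    have : b ^ 2 - TB = b ^ 2 - ι (X ^ (2 * m) * u ^ 2)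
        - ∑ i, ι (β i) * (MvPolynomial.X i - ι (γ i)) := by
      simp only [TB, y]; ring
    rw [this]; exact tB
  have hsum1 : ∑ i, ι (β i) * y i ∈ K γ :=
    Ideal.sum_mem _ fun i _ => Ideal.mul_mem_left _ _ (hy i)
  have hsum2 : ∑ i, ι (j i) * y i ∈ K γ :=
    Ideal.sum_mem _ fun i _ => Ideal.mul_mem_left _ _ (hy i)
  have key : ι (v * u ^ 4) * Tf - TB * J
      = - ((∑ i, ι (β i) * y i) * (∑ i, ι (j i) * y i)) := by
    have e1 : ι (v * u ^ 4) * ∑ i, ι (X ^ (4 * m + 5) * d i) * y i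
        = ι (X ^ (2 * m) * u ^ 2) * (∑ i, ι (j i) * y i) + ι j0 * ∑ i, ι (β i) * y i := by
      rw [Finset.mul_sum, Finset.mul_sum, Finset.mul_sum, ← Finset.sum_add_distrib]
      refine Finset.sum_congr rfl fun i _ => ?_
      have : v * u ^ 4 * (X ^ (4 * m + 5) * d i)
          = X ^ (2 * m) * u ^ 2 * j i + j0 * β i := by
        simp only [j, j0]; ring
      rw [← mul_assoc, ← map_mul, this, map_add, map_mul ι (X ^ (2 * m) * u ^ 2) (j i),
        map_mul ι j0 (β i)]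
      ring
    have e2 : ι (v * u ^ 4) * ι (X ^ (4 * m + 5) * a) = ι (X ^ (2 * m) * u ^ 2) * ι j0 := by
      rw [← map_mul, ← map_mul]
      congr 1
      simp only [j0]; ring
    simp only [Tf, TB, J]
    rw [mul_add, e1, e2]
    ring
  have : ι (v * u ^ 4) * f - b ^ 2 * J
      = ι (v * u ^ 4) * (f - Tf) - (b ^ 2 - TB) * J + (ι (v * u ^ 4) * Tf - TB * J) := by ring
  rw [this, key]
  refine add_mem (sub_mem (Ideal.mul_mem_left _ _ tf') (Ideal.mul_mem_right _ _ tB')) ?_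
  rw [pow_two]
  exact neg_mem (Ideal.mul_mem_mul hsum1 hsum2)

/-- the counterexample data: arcs, separators, and the function -/
theorem exact_data : ∃ (γ : Γ → Fin 9 → ℚ[X]) (b : Γ → S) (w f : S), IsArc γ ∧
    (∀ T, b T ∉ K (γ T)) ∧ (∀ T T', T' ≠ T → b T ∈ K (γ T')) ∧
    MvPolynomial.constantCoeff w ≠ 0 ∧ f - w * (F + G) ∈ p0 ^ 5 ∧ ∀ T, f ∈ K (γ T) ^ 2 := by
  obtain ⟨γ, f, hst⟩ := stage (4 * (Fintype.card Γ - 1) + 5) (by omega)
  obtain ⟨b, u, hu, hb, hb'⟩ := exists_b γ hst.arc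
  have hf0 : MvPolynomial.constantCoeff f = 0 := by
    have h1 : f - (F + G) ∈ p0 := Ideal.pow_le_self (by norm_num) hst.hf
    have h2 : F ∈ p0 := by
      unfold F
      refine add_mem (Ideal.sum_mem _ fun i _ => ?_) ?_
      · exact Ideal.pow_mem_of_mem _ (X_mem i) 3 (by norm_num)
      · exact Ideal.pow_mem_of_mem _ s_mem 3 (by norm_num)
    have h3 : G ∈ p0 := Ideal.pow_le_self (by norm_num) G_mem
    have h4 : f ∈ p0 := by
      have := add_mem h1 (add_mem h2 h3)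
      rwa [sub_add_cancel] at this
    exact h4
  have hord : ∀ T, X ^ (4 * (Fintype.card Γ - 1) + 5) ∣
      (MvPolynomial.aeval (γ T) f : ℚ[X]) := by
    intro T
    refine (pow_dvd_pow X (Nat.le_succ _)).trans
      (ord_of_ord_pderiv (γ T) f _ ?_ (hst.hd T))
    rw [coeff0_aeval (γ T) (hst.arc.c0 T), hf0]
  have hloc : ∀ T, ∃ J ∈ p0 ^ 5,
      ι (∏ T', u T' ^ 4) * f - b T ^ 2 * J ∈ K (γ T) ^ 2 := by
    intro T
    obtain ⟨J, h1, h2⟩ := local_corr (γ T) (hst.arc.sum T) f (b T) (Fintype.card Γ - 1) (u T)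
      (∏ T' ∈ Finset.univ.erase T, u T' ^ 4) (hb T) (hord T) (hst.hd T)
    refine ⟨J, h1, ?_⟩
    rwa [Finset.prod_erase_mul _ _ (Finset.mem_univ T)] at h2
  choose J hJ hJ' using hloc
  refine ⟨γ, b, ι (∏ T', u T' ^ 4), ι (∏ T', u T' ^ 4) * f - ∑ T, b T ^ 2 * J T, hst.arc,
    ?_, hb', ?_, ?_, ?_⟩
  · intro T hT
    rw [RingHom.mem_ker] at hT
    have h1 := hb T
    have h2 : u T ≠ 0 := fun h => hu T (by rw [h]; simp)
    have h3 : X ^ (Fintype.card Γ - 1) * u T ≠ 0 := mul_ne_zero (pow_ne_zero _ X_ne_zero) h2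
    exact h3 (h1.symm.trans hT)
  · rw [constantCoeff_ι, coeff_zero_eq_eval_zero, eval_prod, Finset.prod_ne_zero_iff]
    intro T' _
    rw [eval_pow, ← coeff_zero_eq_eval_zero]
    exact pow_ne_zero _ (hu T')
  · have : ι (∏ T', u T' ^ 4) * f - ∑ T, b T ^ 2 * J T - ι (∏ T', u T' ^ 4) * (F + G)
        = ι (∏ T', u T' ^ 4) * (f - (F + G)) - ∑ T, b T ^ 2 * J T := by ring
    rw [this]
    exact sub_mem (Ideal.mul_mem_left _ _ hst.hf)
      (Ideal.sum_mem _ fun T _ => Ideal.mul_mem_left _ _ (hJ T))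
  · intro T
    have : ι (∏ T', u T' ^ 4) * f - ∑ T, b T ^ 2 * J T
        = (ι (∏ T', u T' ^ 4) * f - b T ^ 2 * J T)
          - ∑ T' ∈ Finset.univ.erase T, b T' ^ 2 * J T' := by
      rw [← Finset.add_sum_erase _ _ (Finset.mem_univ T)]
      ring
    rw [this]
    refine sub_mem (hJ' T) (Ideal.sum_mem _ fun T' hT' => Ideal.mul_mem_right _ _ ?_)
    exact Ideal.pow_mem_pow (hb' T' T (Finset.ne_of_mem_erase hT').symm) 2

/-- order of vanishing of `F` and `G` along linear arcs -/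
theorem ln_F (x : Fin 9 → ℚ) :
    (MvPolynomial.aeval (ln x) F : ℚ[X]) = C (∑ i, x i ^ 3 - (∑ i, x i) ^ 3) * X ^ 3 := by
  have hs : (MvPolynomial.aeval (ln x) s : ℚ[X]) = - (C (∑ i, x i) * X) := by
    unfold s
    rw [map_neg, map_sum, map_sum, Finset.sum_mul]
    simp [ln]
  unfold F
  rw [map_add, map_sum, map_pow, hs]
  simp only [map_pow, MvPolynomial.aeval_X, ln, map_sub, map_sum, mul_pow]
  rw [← Finset.sum_mul]
  ring

theorem ln_G : (MvPolynomial.aeval (ln (pt T0)) G : ℚ[X]) = C 16 * X ^ 4 := by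
  have hs : (MvPolynomial.aeval (ln (pt T0)) s : ℚ[X]) = X := by
    unfold s
    rw [map_neg, map_sum]
    simp only [MvPolynomial.aeval_X, ln, ← Finset.sum_mul, ← map_sum,
      sum_pt T0 (by decide)]
    simp
  unfold G
  have h0 : pt T0 0 = 1 := by simp [pt, T0]
  have h1 : pt T0 1 = 1 := by simp [pt, T0]
  have h2 : pt T0 2 = 1 := by simp [pt, T0]
  have h3 : pt T0 3 = 1 := by simp [pt, T0]
  simp only [map_mul, map_add, MvPolynomial.aeval_X, ln, hs, h0, h1, h2, h3]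
  simp only [map_one, one_mul, map_ofNat]
  ring

/-- the exact statement in the polynomial ring -/
theorem poly_data : ∃ (γ : Γ → Fin 9 → ℚ[X]) (b : Γ → S) (f : S),
    (∀ T, K (γ T) ≤ p0) ∧
    (∀ T, b T ∉ K (γ T)) ∧ (∀ T T', T' ≠ T → b T ∈ K (γ T')) ∧
    (∀ T, f ∈ K (γ T) ^ 2) ∧
    ∀ a : S, a ∉ p0 → a * f ∉ p0 * ⨅ T, K (γ T) := by
  obtain ⟨γ, b, w, f, harc, h1, h2, hw, hf, h3⟩ := exact_data
  refine ⟨γ, b, f, ?_, h1, h2, h3, ?_⟩
  · intro T z hz
    rw [RingHom.mem_ker] at hz ⊢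
    rw [← coeff0_aeval (γ T) (harc.c0 T) z]
    have hz' : (MvPolynomial.aeval (γ T) z : ℚ[X]) = 0 := hz
    rw [hz', coeff_zero]
  · intro a ha hmem
    have ha0 : MvPolynomial.constantCoeff a ≠ 0 := fun h => ha h
    -- expansion along linear arcs
    have h5 : a * f = (a * w) * (F + G) + a * (f - w * (F + G)) := by ring
    have hexp : ∀ x, ∃ q : ℚ[X], (MvPolynomial.aeval (ln x) (a * f) : ℚ[X])
        = MvPolynomial.aeval (ln x) (a * w) * (MvPolynomial.aeval (ln x) F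
          + MvPolynomial.aeval (ln x) G) + X ^ 5 * q := by
      intro x
      obtain ⟨q, hq⟩ := dvd_aeval_of_mem (ln x) (ln0 x) 5 _ (Ideal.mul_mem_left _ a hf)
      refine ⟨q, ?_⟩
      rw [h5, map_add, hq, map_mul _ (a * w) (F + G), map_add]
    have hβ := nonmem γ harc (⨅ T, K (γ T)) (fun h hh T => by
        have := (Ideal.mem_iInf.1 hh) T
        exact this) (a * f) hmem
      (MvPolynomial.constantCoeff (a * w)) (by
        intro x
        obtain ⟨q, hq⟩ := hexp x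
        obtain ⟨g, hg⟩ := dvd_aeval_of_mem (ln x) (ln0 x) 4 _ G_mem
        rw [hq, ln_F, hg, ← coeff0_aeval (ln x) (ln0 x) (a * w)]
        have e : MvPolynomial.aeval (ln x) (a * w)
            * (C (∑ i, x i ^ 3 - (∑ i, x i) ^ 3) * X ^ 3 + X ^ 4 * g) + X ^ 5 * q
            = X ^ 3 * (MvPolynomial.aeval (ln x) (a * w) * C (∑ i, x i ^ 3 - (∑ i, x i) ^ 3)
              + X * (MvPolynomial.aeval (ln x) (a * w) * g + X * q)) := by ring
        rw [e, coeff_X_pow_mul', if_pos le_rfl, Nat.sub_self, coeff_add, mul_coeff_zero,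
          coeff_C_zero, mul_coeff_zero X, coeff_X_zero]
        ring) (by
        obtain ⟨q, hq⟩ := hexp (pt T0)
        rw [hq, ln_F, ln_G, ← coeff0_aeval (ln (pt T0)) (ln0 _) (a * w)]
        have e0 : ∑ i, pt T0 i ^ 3 - (∑ i, pt T0 i) ^ 3 = 0 := by
          have : ∀ i, pt T0 i ^ 3 = pt T0 i := fun i => by
            rw [pow_succ, pt_sq, one_mul]
          simp only [this, sum_pt T0 (by decide)]
          norm_num
        have e : MvPolynomial.aeval (ln (pt T0)) (a * w)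
            * (C (∑ i, pt T0 i ^ 3 - (∑ i, pt T0 i) ^ 3) * X ^ 3 + C 16 * X ^ 4) + X ^ 5 * q
            = X ^ 4 * (MvPolynomial.aeval (ln (pt T0)) (a * w) * C 16 + X * q) := by
          rw [e0, C_0]; ring
        rw [e, coeff_X_pow_mul', if_pos le_rfl, Nat.sub_self, coeff_add, mul_coeff_zero,
          coeff_C_zero, mul_coeff_zero X, coeff_X_zero]
        ring)
    rw [map_mul] at hβ
    exact mul_ne_zero ha0 hw hβ

end Pool.Agent.helper75.EM
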