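import Mathlib

/-! Passing from the polynomial ring to its localization. -/

set_option autoImplicit false

namespace Pool.Agent.helper75.EM

theorem transfer {S : Type} [CommRing S] (p : Ideal S) [p.IsPrime] {ι : Type} [Fintype ι]
    [Nonempty ι] (K : ι → Ideal S) (hK : ∀ i, (K i).IsPrime) (hle : ∀ i, K i ≤ p)
    (b : ι → S) (hb : ∀ i, b i ∉ K i) (hb' : ∀ i j, j ≠ i → b i ∈ K j) (f : S)
    (hf : ∀ i, f ∈ K i ^ 2) (hn : ∀ a : S, a ∉ p → a * f ∉ p * ⨅ i, K i) :
    ∃ (I : Ideal (Localization.AtPrime p)) (r : Localization.AtPrime p), I.IsRadical ∧ I ≠ ⊤ ∧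
      (∀ P ∈ I.minimalPrimes, ∃ s, s ∉ P ∧ s * r ∈ I ^ 2) ∧
      r ∉ IsLocalRing.maximalIdeal (Localization.AtPrime p) * I := by
  have hmax : Ideal.map (algebraMap S (Localization.AtPrime p)) p
      = IsLocalRing.maximalIdeal (Localization.AtPrime p) :=
    Localization.AtPrime.map_eq_maximalIdeal
  refine ⟨(⨅ i, K i).map (algebraMap S (Localization.AtPrime p)),
    algebraMap S (Localization.AtPrime p) f, ?_, ?_, ?_, ?_⟩
  · rw [← Ideal.radical_eq_iff, ← IsLocalization.map_radical p.primeCompl,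
      (Ideal.isRadical_iInf K fun i => (hK i).isRadical).radical]
  · intro htop
    have h1 : (⨅ i, K i) ≤ p := (iInf_le K (Classical.arbitrary ι)).trans (hle _)
    have h2 := Ideal.map_mono (f := algebraMap S (Localization.AtPrime p)) h1
    rw [htop, hmax, top_le_iff] at h2
    exact Ideal.IsPrime.ne_top' h2
  · intro P hP
    obtain ⟨⟨hPp, hIP⟩, hmin⟩ := hP
    have h1 : (⨅ i, K i) ≤ P.comap (algebraMap S (Localization.AtPrime p)) :=
      Ideal.map_le_iff_le_comap.1 hIP
    have : (P.comap (algebraMap S (Localization.AtPrime p))).IsPrime :=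
      Ideal.IsPrime.comap _
    rw [← Finset.inf_univ_eq_iInf] at h1
    obtain ⟨i, -, hi⟩ := (Ideal.IsPrime.inf_le' this).1 h1
    have := hK i
    have h2 : ((K i).map (algebraMap S (Localization.AtPrime p))).IsPrime :=
      Ideal.isPrime_map_of_isLocalizationAtPrime p (hle i)
    have h3 : P ≤ (K i).map (algebraMap S (Localization.AtPrime p)) :=
      hmin ⟨h2, Ideal.map_mono (iInf_le K i)⟩ (Ideal.map_le_iff_le_comap.2 hi)
    refine ⟨algebraMap S (Localization.AtPrime p) (b i ^ 2), ?_, ?_⟩
    · intro hs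
      have h4 : b i ^ 2 ∈ ((K i).map (algebraMap S (Localization.AtPrime p))).under S := h3 hs
      rw [Ideal.under_map_of_isLocalizationAtPrime p (hle i)] at h4
      exact hb i ((hK i).mem_of_pow_mem 2 h4)
    · rw [← map_mul, ← Ideal.map_pow]
      refine Ideal.mem_map_of_mem _ ?_
      have h5 : Ideal.span {b i} * K i ≤ ⨅ i, K i := by
        refine le_iInf fun j => ?_
        by_cases hj : j = i
        · rw [hj]; exact Ideal.mul_le_inf.trans inf_le_right
        · exact (Ideal.mul_le_inf.trans inf_le_left).trans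
            ((Ideal.span_singleton_le_iff_mem _).2 (hb' i j hj))
      have h6 := Ideal.pow_right_mono h5 2
      rw [mul_pow] at h6
      exact h6 (Ideal.mul_mem_mul
        (Ideal.pow_mem_pow (Ideal.mem_span_singleton_self _) 2) (hf i))
  · intro hmem
    rw [← hmax, ← Ideal.map_mul] at hmem
    obtain ⟨⟨⟨x, hx⟩, ⟨c, hc⟩⟩, h1⟩ := (IsLocalization.mem_map_algebraMap_iff p.primeCompl
      (Localization.AtPrime p)).1 hmem
    simp only at h1
    rw [← map_mul] at h1
    obtain ⟨⟨d, hd⟩, h2⟩ := (IsLocalization.eq_iff_exists p.primeCompl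
      (Localization.AtPrime p)).1 h1
    simp only at h2
    refine hn (d * c) (fun h => ?_) ?_
    · rcases Ideal.IsPrime.mem_or_mem ‹_› h with h | h
      · exact hd h
      · exact hc h
    · have : d * c * f = d * x := by rw [← h2]; ring
      rw [this]
      exact Ideal.mul_mem_left _ _ hx

end Pool.Agent.helper75.EM
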