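import Pool.Agent.helper75.EM.Jet

/-! Order-by-order construction of the function and of the arcs. -/

set_option autoImplicit false

namespace Pool.Agent.helper75.EM

open Polynomial

theorem X_mem (i : Fin 9) : (MvPolynomial.X i : S) ∈ p0 := by simp [RingHom.mem_ker]

theorem s_mem : s ∈ p0 := by
  unfold s
  exact neg_mem (Ideal.sum_mem _ fun i _ => X_mem i)

theorem dvd_aeval_of_mem (γ : Fin 9 → ℚ[X]) (hγ : ∀ i, (γ i).coeff 0 = 0) (k : ℕ) (z : S)
    (hz : z ∈ p0 ^ k) : X ^ k ∣ (MvPolynomial.aeval γ z : ℚ[X]) := by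
  have h1 : Ideal.map (MvPolynomial.aeval γ : S →ₐ[ℚ] ℚ[X]).toRingHom p0
      ≤ Ideal.span {(X : ℚ[X])} := by
    rw [Ideal.map_le_iff_le_comap]
    intro a ha
    rw [Ideal.mem_comap, Ideal.mem_span_singleton, X_dvd_iff]
    have := coeff0_aeval γ hγ a
    rw [RingHom.mem_ker] at ha
    rw [ha] at this
    exact this
  have h2 : (MvPolynomial.aeval γ : S →ₐ[ℚ] ℚ[X]).toRingHom z
      ∈ Ideal.map (MvPolynomial.aeval γ : S →ₐ[ℚ] ℚ[X]).toRingHom (p0 ^ k) :=
    Ideal.mem_map_of_mem _ hz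
  rw [Ideal.map_pow] at h2
  have h3 := Ideal.pow_right_mono h1 k h2
  rw [Ideal.span_singleton_pow, Ideal.mem_span_singleton] at h3
  exact h3

theorem pderiv_mem (i : Fin 9) (k : ℕ) : ∀ z : S, z ∈ p0 ^ (k + 1) →
    MvPolynomial.pderiv i z ∈ p0 ^ k := by
  induction k with
  | zero => intro z _; simp
  | succ k ih =>
    intro z hz
    rw [pow_succ'] at hz
    refine Submodule.mul_induction_on (C := fun z => MvPolynomial.pderiv i z ∈ p0 ^ (k + 1))
      hz ?_ ?_
    · intro a ha b hb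
      rw [MvPolynomial.pderiv_mul]
      refine Ideal.add_mem _ (Ideal.mul_mem_left _ _ hb) ?_
      rw [pow_succ']
      exact Ideal.mul_mem_mul ha (ih b hb)
    · intro x y hx hy
      rw [map_add]
      exact Ideal.add_mem _ hx hy

theorem pderiv_s (i : Fin 9) : MvPolynomial.pderiv i s = -1 := by
  unfold s
  rw [map_neg, map_sum]
  simp [MvPolynomial.pderiv_X, Pi.single_apply]

theorem pderiv_F (i : Fin 9) :
    MvPolynomial.pderiv i F = 3 * MvPolynomial.X i ^ 2 - 3 * s ^ 2 := by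
  unfold F
  rw [map_add, map_sum, MvPolynomial.pderiv_pow, pderiv_s]
  simp only [MvPolynomial.pderiv_pow, MvPolynomial.pderiv_X, Pi.single_apply, mul_ite, mul_zero,
    mul_one]
  rw [Finset.sum_ite_eq' Finset.univ i]
  simp
  ring

theorem pderiv2_F (i j : Fin 9) :
    MvPolynomial.pderiv j (MvPolynomial.pderiv i F)
      = (if i = j then 6 * MvPolynomial.X i else 0) + 6 * s := by
  rw [pderiv_F, map_sub]
  have e1 : MvPolynomial.pderiv j (3 * MvPolynomial.X i ^ 2 : S)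
      = if i = j then 6 * MvPolynomial.X i else 0 := by
    rw [show (3 : S) = MvPolynomial.C 3 by simp [map_ofNat], MvPolynomial.pderiv_C_mul,
      MvPolynomial.pderiv_pow, MvPolynomial.pderiv_X, Pi.single_apply]
    split_ifs with h
    · simp [map_ofNat]
      ring
    · simp
  have e2 : MvPolynomial.pderiv j (3 * s ^ 2 : S) = - 6 * s := by
    rw [show (3 : S) = MvPolynomial.C 3 by simp [map_ofNat], MvPolynomial.pderiv_C_mul,
      MvPolynomial.pderiv_pow, pderiv_s]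
    simp [map_ofNat]
    ring
  rw [e1, e2]
  ring

theorem pderiv_G (i : Fin 9) :
    MvPolynomial.pderiv i G =
      (MvPolynomial.C ((if i = 0 then 1 else 0) - 1)) *
        ((MvPolynomial.X 1 + s) * (MvPolynomial.X 2 + s) * (MvPolynomial.X 3 + s))
      + (MvPolynomial.C ((if i = 1 then 1 else 0) - 1)) *
        ((MvPolynomial.X 0 + s) * (MvPolynomial.X 2 + s) * (MvPolynomial.X 3 + s))
      + (MvPolynomial.C ((if i = 2 then 1 else 0) - 1)) *
        ((MvPolynomial.X 0 + s) * (MvPolynomial.X 1 + s) * (MvPolynomial.X 3 + s))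
      + (MvPolynomial.C ((if i = 3 then 1 else 0) - 1)) *
        ((MvPolynomial.X 0 + s) * (MvPolynomial.X 1 + s) * (MvPolynomial.X 2 + s)) := by
  have e : ∀ k : Fin 9, MvPolynomial.pderiv i (MvPolynomial.X k + s)
      = MvPolynomial.C ((if i = k then 1 else 0) - 1) := by
    intro k
    rw [map_add, pderiv_s, MvPolynomial.pderiv_X, Pi.single_apply]
    by_cases h : k = i
    · simp [h]
    · simp [h, Ne.symm h]
  unfold G
  rw [MvPolynomial.pderiv_mul, MvPolynomial.pderiv_mul, MvPolynomial.pderiv_mul, e, e, e, e]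
  ring

theorem G_mem : G ∈ p0 ^ 4 := by
  unfold G
  have h : ∀ k : Fin 9, (MvPolynomial.X k + s : S) ∈ p0 := fun k => add_mem (X_mem k) s_mem
  rw [show (4 : ℕ) = 1 + 1 + 1 + 1 by norm_num, pow_add, pow_add, pow_add, pow_one]
  exact Ideal.mul_mem_mul (Ideal.mul_mem_mul (Ideal.mul_mem_mul (h 0) (h 1)) (h 2)) (h 3)

theorem aeval_s (γ : Fin 9 → ℚ[X]) (h : ∑ i, γ i = -X) :
    (MvPolynomial.aeval γ s : ℚ[X]) = X := by
  unfold s
  rw [map_neg, map_sum]
  simp [h]

/-- separators -/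
noncomputable def E (T : Finset (Fin 9)) : S := ∏ i ∈ T, (MvPolynomial.X i + s)

theorem E_mem (T : Finset (Fin 9)) (hT : T.card = 4) : E T ∈ p0 ^ 4 := by
  unfold E
  rw [← hT, ← Finset.prod_const]
  exact Ideal.prod_mem_prod fun i _ => add_mem (X_mem i) s_mem

theorem E_eval (γ : Γ → Fin 9 → ℚ[X]) (hγ : IsArc γ) (T T' : Γ) (k : ℕ) :
    (MvPolynomial.aeval (γ T') (E T.1 * s ^ k) : ℚ[X]).coeff (4 + k)
      = if T = T' then 16 else 0 := by
  have h1 : ∀ i, ∃ q : ℚ[X], γ T' i + X = X * q ∧ q.coeff 0 = pt T'.1 i + 1 := by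
    intro i
    have : X ∣ γ T' i + X := by
      rw [X_dvd_iff]
      simp [hγ.c0]
    obtain ⟨q, hq⟩ := this
    refine ⟨q, hq, ?_⟩
    have := congrArg (fun p => p.coeff 1) hq
    simp only [coeff_add, hγ.c1, coeff_X_one] at this
    rw [this, show (1 : ℕ) = 0 + 1 by norm_num, coeff_X_mul]
  choose q hq hq0 using h1
  have h2 : (MvPolynomial.aeval (γ T') (E T.1 * s ^ k) : ℚ[X])
      = X ^ (4 + k) * ∏ i ∈ T.1, q i := by
    unfold E
    rw [map_mul, map_pow, map_prod, aeval_s _ (hγ.sum T')]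
    simp only [map_add, MvPolynomial.aeval_X, aeval_s _ (hγ.sum T'), hq]
    rw [Finset.prod_mul_distrib, Finset.prod_const, T.2.1]
    ring
  rw [h2, coeff_X_pow_mul', if_pos le_rfl, Nat.sub_self]
  have h3 : (∏ i ∈ T.1, q i).coeff 0 = ∏ i ∈ T.1, (q i).coeff 0 := by
    rw [coeff_zero_eq_eval_zero, eval_prod]
    simp only [coeff_zero_eq_eval_zero]
  rw [h3]
  simp only [hq0]
  split_ifs with h
  · subst h
    rw [Finset.prod_congr rfl (g := fun _ => (2 : ℚ)) (fun i hi => by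
      simp [pt, hi]; norm_num), Finset.prod_const, T.2.1]
    norm_num
  · have : ∃ i ∈ T.1, i ∉ T'.1 := by
      by_contra hcon
      push Not at hcon
      exact h (Subtype.ext (Finset.eq_of_subset_of_card_le hcon (by rw [T.2.1, T'.2.1])))
    obtain ⟨i, hi, hi'⟩ := this
    exact Finset.prod_eq_zero hi (by simp [pt, hi'])

/-- the data at stage `N` -/
structure Stage (N : ℕ) (γ : Γ → Fin 9 → ℚ[X]) (f : S) : Prop where
  arc : IsArc γ
  hf : f - (F + G) ∈ p0 ^ 5
  hd : ∀ T i, X ^ N ∣ (MvPolynomial.aeval (γ T) (MvPolynomial.pderiv i f) : ℚ[X])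

theorem hess (γ : Γ → Fin 9 → ℚ[X]) (hγ : IsArc γ) (f : S) (hf : f - (F + G) ∈ p0 ^ 5)
    (T : Γ) (i j : Fin 9) :
    ∃ r : ℚ[X], (MvPolynomial.aeval (γ T)
      (MvPolynomial.pderiv j (MvPolynomial.pderiv i f)) : ℚ[X]) = X * r ∧
      r.coeff 0 = (if i = j then 6 * pt T.1 i else 0) + 6 := by
  have h1 : MvPolynomial.pderiv j (MvPolynomial.pderiv i (f - (F + G))) ∈ p0 ^ 2 :=
    Ideal.pow_le_pow_right (by norm_num)
      (pderiv_mem j 3 _ (pderiv_mem i 4 _ hf))
  have h2 : MvPolynomial.pderiv j (MvPolynomial.pderiv i G) ∈ p0 ^ 2 :=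
    pderiv_mem j 2 _ (pderiv_mem i 3 _ G_mem)
  have h3 : MvPolynomial.pderiv j (MvPolynomial.pderiv i f)
      = ((if i = j then 6 * MvPolynomial.X i else 0) + 6 * s)
        + (MvPolynomial.pderiv j (MvPolynomial.pderiv i (f - (F + G)))
          + MvPolynomial.pderiv j (MvPolynomial.pderiv i G)) := by
    rw [← pderiv2_F]
    simp only [map_sub, map_add]
    ring
  obtain ⟨w, hw⟩ := dvd_aeval_of_mem (γ T) (hγ.c0 T) 2 _ (add_mem h1 h2)
  obtain ⟨g, hg⟩ : X ∣ γ T i := by rw [X_dvd_iff]; exact hγ.c0 T i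
  have hg0 : g.coeff 0 = pt T.1 i := by
    have := hγ.c1 T i
    rwa [hg, show (1 : ℕ) = 0 + 1 by norm_num, coeff_X_mul] at this
  refine ⟨(if i = j then 6 * g else 0) + 6 + X * w, ?_, ?_⟩
  · rw [h3, map_add, hw, map_add, map_mul, aeval_s _ (hγ.sum T)]
    split_ifs
    · simp only [map_mul, MvPolynomial.aeval_X, map_ofNat, hg]
      ring
    · simp only [map_zero, map_ofNat]
      ring
  · split_ifs
    · simp [coeff_add, mul_coeff_zero, hg0]
    · simp [coeff_add, mul_coeff_zero]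

theorem arc_step (n : ℕ) (hn : 2 ≤ n) (γ γ' : Fin 9 → ℚ[X]) (v : Fin 9 → ℚ)
    (hγ' : ∀ j, γ' j = γ j + X ^ n * C (v j)) (P : S)
    (hP : X ^ (n + 1) ∣ (MvPolynomial.aeval γ P : ℚ[X])) (r : Fin 9 → ℚ[X])
    (hr : ∀ j, (MvPolynomial.aeval γ (MvPolynomial.pderiv j P) : ℚ[X]) = X * r j)
    (h0 : (MvPolynomial.aeval γ P : ℚ[X]).coeff (n + 1) + ∑ j, (r j).coeff 0 * v j = 0) :
    X ^ (n + 1 + 1) ∣ (MvPolynomial.aeval γ' P : ℚ[X]) := by
  have ht := taylor (Ideal.span {(X : ℚ[X]) ^ n}) γ γ' (by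
    intro j
    rw [Ideal.mem_span_singleton]
    exact ⟨C (v j), by rw [hγ']; ring⟩) P
  rw [Ideal.span_singleton_pow, Ideal.mem_span_singleton, ← pow_mul] at ht
  have ht' : X ^ (n + 1 + 1) ∣ (MvPolynomial.aeval γ' P : ℚ[X])
      - MvPolynomial.aeval γ P
      - ∑ j, MvPolynomial.aeval γ (MvPolynomial.pderiv j P)
        * (γ' j - γ j) := (pow_dvd_pow X (by omega)).trans ht
  obtain ⟨q, hq⟩ := hP
  have hq0 : (MvPolynomial.aeval γ P : ℚ[X]).coeff (n + 1) = q.coeff 0 := by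
    rw [hq, coeff_X_pow_mul', if_pos le_rfl, Nat.sub_self]
  have e1 : ∑ j, MvPolynomial.aeval γ (MvPolynomial.pderiv j P) * (γ' j - γ j)
      = X ^ (n + 1) * ∑ j, r j * C (v j) := by
    rw [Finset.mul_sum]
    refine Finset.sum_congr rfl fun j _ => ?_
    rw [hr j, hγ' j]
    ring
  have e2 : X ∣ q + ∑ j, r j * C (v j) := by
    rw [X_dvd_iff, coeff_add, ← hq0, finsetSum_coeff]
    simp only [mul_coeff_zero, coeff_C_zero]
    exact h0
  have e3 : X ^ (n + 1 + 1) ∣ X ^ (n + 1) * (q + ∑ j, r j * C (v j)) := by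
    rw [pow_succ (X : ℚ[X]) (n + 1)]
    exact mul_dvd_mul_left _ e2
  rw [e1, hq] at ht'
  have e4 := dvd_add ht' e3
  have e5 : (MvPolynomial.aeval γ' P : ℚ[X]) - X ^ (n + 1) * q
      - X ^ (n + 1) * ∑ j, r j * C (v j) + X ^ (n + 1) * (q + ∑ j, r j * C (v j))
      = MvPolynomial.aeval γ' P := by
    ring
  rwa [e5] at e4

theorem step (N : ℕ) (hN : 4 ≤ N) (γ : Γ → Fin 9 → ℚ[X]) (f : S) (hs : Stage N γ f) :
    ∃ γ' f', Stage (N + 1) γ' f' := by
  obtain ⟨hγ, hf, hd⟩ := hs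
  obtain ⟨k, rfl⟩ : ∃ k, N = k + 3 := ⟨N - 3, by omega⟩
  have hk : 1 ≤ k := by omega
  -- the correction of `f`
  let h : Γ → ℚ := fun T => (MvPolynomial.aeval (γ T) f : ℚ[X]).coeff (k + 3 + 1)
  let f' : S := f - ∑ T : Γ, MvPolynomial.C (h T / 16) * (E T.1 * s ^ k)
  have hcor : ∀ T : Γ, MvPolynomial.C (h T / 16) * (E T.1 * s ^ k) ∈ p0 ^ (k + 4) := by
    intro T
    refine Ideal.mul_mem_left _ _ ?_
    rw [add_comm, pow_add]
    exact Ideal.mul_mem_mul (E_mem T.1 T.2.1) (Ideal.pow_mem_pow s_mem k)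
  have hsum : ∑ T : Γ, MvPolynomial.C (h T / 16) * (E T.1 * s ^ k) ∈ p0 ^ (k + 4) :=
    Ideal.sum_mem _ fun T _ => hcor T
  have hf' : f' - (F + G) ∈ p0 ^ 5 := by
    have : f' - (F + G) = (f - (F + G))
      - ∑ T : Γ, MvPolynomial.C (h T / 16) * (E T.1 * s ^ k) := by
      simp only [f']; ring
    rw [this]
    exact sub_mem hf (Ideal.pow_le_pow_right (by omega) hsum)
  have hd' : ∀ T i, X ^ (k + 3) ∣
      (MvPolynomial.aeval (γ T) (MvPolynomial.pderiv i f') : ℚ[X]) := by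
    intro T i
    simp only [f', map_sub]
    refine dvd_sub (hd T i) ?_
    exact dvd_aeval_of_mem (γ T) (hγ.c0 T) (k + 3) _ (pderiv_mem i (k + 3) _ hsum)
  have hval : ∀ T, (MvPolynomial.aeval (γ T) f' : ℚ[X]).coeff (k + 3 + 1) = 0 := by
    intro T
    simp only [f', map_sub, map_sum, coeff_sub, finsetSum_coeff]
    have : ∀ T' : Γ, (MvPolynomial.aeval (γ T)
        (MvPolynomial.C (h T' / 16) * (E T'.1 * s ^ k)) : ℚ[X]).coeff (k + 3 + 1)
        = if T' = T then h T else 0 := by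
      intro T'
      rw [map_mul, MvPolynomial.algHom_C, algebraMap_eq, coeff_C_mul,
        show k + 3 + 1 = 4 + k by ring, E_eval γ hγ T' T k]
      split_ifs with hT
      · rw [hT]; ring
      · ring
    rw [Finset.sum_congr rfl fun T' _ => this T']
    simp [h]
  -- the correction of the arcs
  let g : Γ → Fin 9 → ℚ := fun T i =>
    (MvPolynomial.aeval (γ T) (MvPolynomial.pderiv i f') : ℚ[X]).coeff (k + 3)
  have hg : ∀ T, ∑ i, g T i * pt T.1 i = 0 := by
    intro T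
    have := chain_coeff (γ T) f' (k + 3) (hd' T)
    rw [hval, mul_zero] at this
    simp only [hγ.c1] at this
    exact this.symm
  let v : Γ → Fin 9 → ℚ := fun T i => - pt T.1 i * g T i / 6
  have hv : ∀ T, ∑ i, v T i = 0 := by
    intro T
    have : ∀ i, v T i = (-1 / 6) * (g T i * pt T.1 i) := fun i => by simp only [v]; ring
    rw [Finset.sum_congr rfl fun i _ => this i, ← Finset.mul_sum, hg, mul_zero]
  let γ' : Γ → Fin 9 → ℚ[X] := fun T i => γ T i + X ^ (k + 2) * C (v T i)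
  have hc : ∀ T i d, d ≤ 2 → (γ' T i).coeff d = (γ T i).coeff d := by
    intro T i d hd2
    simp only [γ', coeff_add]
    rw [coeff_X_pow_mul', if_neg (by omega), add_zero]
  refine ⟨γ', f', ⟨?_, ?_, ?_, ?_⟩, hf', ?_⟩
  · intro T i; rw [hc T i 0 (by norm_num)]; exact hγ.c0 T i
  · intro T i; rw [hc T i 1 (by norm_num)]; exact hγ.c1 T i
  · intro T i; rw [hc T i 2 (by norm_num)]; exact hγ.c2 T i
  · intro T
    simp only [γ', Finset.sum_add_distrib, hγ.sum, ← Finset.mul_sum, ← map_sum, hv]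
    simp
  · intro T i
    choose r hr hr0 using fun j => hess γ hγ f' hf' T i j
    refine arc_step (k + 2) (by omega) (γ T) (γ' T) (v T) (fun j => rfl)
      (MvPolynomial.pderiv i f') (hd' T i) r hr ?_
    have : ∀ j, (r j).coeff 0 * v T j = (if i = j then 6 * pt T.1 i * v T i else 0)
        + 6 * v T j := by
      intro j
      rw [hr0, add_mul]
      split_ifs with hij
      · rw [hij]
      · ring
    rw [Finset.sum_congr rfl fun j _ => this j, Finset.sum_add_distrib, ← Finset.mul_sum, hv]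
    simp only [Finset.sum_ite_eq, Finset.mem_univ, if_true, mul_zero, add_zero]
    have := pt_sq T.1 i
    change g T i + 6 * pt T.1 i * v T i = 0
    simp only [v]
    linear_combination (-g T i) * this

/-- Euler's relation for the quartic at points with `s = 1` -/
theorem euler_G (e : Fin 9 → ℚ) (he : ∑ i, e i = -1) :
    ∑ i, e i * dG e i = 4 * ((e 0 + 1) * (e 1 + 1) * (e 2 + 1) * (e 3 + 1)) := by
  have : ∀ i, e i * dG e i =
      ((if i = 0 then e i else 0) - e i) * ((e 1 + 1) * (e 2 + 1) * (e 3 + 1))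
      + ((if i = 1 then e i else 0) - e i) * ((e 0 + 1) * (e 2 + 1) * (e 3 + 1))
      + ((if i = 2 then e i else 0) - e i) * ((e 0 + 1) * (e 1 + 1) * (e 3 + 1))
      + ((if i = 3 then e i else 0) - e i) * ((e 0 + 1) * (e 1 + 1) * (e 2 + 1)) := by
    intro i
    unfold dG
    split_ifs <;> ring
  rw [Finset.sum_congr rfl fun i _ => this i]
  simp only [Finset.sum_add_distrib, ← Finset.sum_mul, Finset.sum_sub_distrib,
    Finset.sum_ite_eq', Finset.mem_univ, if_true, he]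
  ring

theorem G_pt (T : Γ) :
    (pt T.1 0 + 1) * (pt T.1 1 + 1) * (pt T.1 2 + 1) * (pt T.1 3 + 1) = 0 := by
  by_contra hne
  have h : ∀ i, pt T.1 i + 1 ≠ 0 → i ∈ T.1 := by
    intro i hi
    by_contra hn
    exact hi (by simp [pt, hn])
  have h0 : (0 : Fin 9) ∈ T.1 := h 0 fun hz => hne (by rw [hz]; ring)
  have h1 : (1 : Fin 9) ∈ T.1 := h 1 fun hz => hne (by rw [hz]; ring)
  have h2 : (2 : Fin 9) ∈ T.1 := h 2 fun hz => hne (by rw [hz]; ring)
  have h3 : (3 : Fin 9) ∈ T.1 := h 3 fun hz => hne (by rw [hz]; ring)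
  have hsub : T0 ⊆ T.1 := by
    intro x hx
    simp only [T0, Finset.mem_insert, Finset.mem_singleton] at hx
    rcases hx with rfl | rfl | rfl | rfl <;> assumption
  exact T.2.2 (Finset.eq_of_subset_of_card_le hsub (by rw [T.2.1]; decide)).symm

theorem base : ∃ γ f, Stage 4 γ f := by
  let v : Γ → Fin 9 → ℚ := fun T i => - pt T.1 i * dG (pt T.1) i / 6
  let γ : Γ → Fin 9 → ℚ[X] := fun T i => C (pt T.1 i) * X + C (v T i) * X ^ 2
  have hv : ∀ T, ∑ i, v T i = 0 := by
    intro T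
    have h1 := euler_G (pt T.1) (sum_pt T.1 T.2.1)
    rw [G_pt, mul_zero] at h1
    have : ∀ i, v T i = (-1 / 6) * (pt T.1 i * dG (pt T.1) i) := fun i => by
      simp only [v]; ring
    rw [Finset.sum_congr rfl fun i _ => this i, ← Finset.mul_sum, h1, mul_zero]
  have harc : IsArc γ := by
    refine ⟨?_, ?_, ?_, ?_⟩
    · intro T i; simp [γ]
    · intro T i; simp [γ, coeff_X_pow]
    · intro T i; simp [γ, coeff_X_pow, v]
    · intro T
      simp only [γ, Finset.sum_add_distrib, ← Finset.sum_mul, ← map_sum, hv,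
        sum_pt T.1 T.2.1]
      simp
  refine ⟨γ, F + G, harc, by simp, ?_⟩
  intro T i
  have hs : (MvPolynomial.aeval (γ T) s : ℚ[X]) = X := aeval_s _ (harc.sum T)
  have e1 : (MvPolynomial.aeval (γ T) (MvPolynomial.pderiv i (F + G)) : ℚ[X])
      = X ^ 3 * (C (6 * pt T.1 i * v T i) + 3 * C (v T i) ^ 2 * X +
        (C ((if i = 0 then 1 else 0) - 1) * ((C (pt T.1 1 + 1) + C (v T 1) * X)
            * (C (pt T.1 2 + 1) + C (v T 2) * X) * (C (pt T.1 3 + 1) + C (v T 3) * X))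
        + C ((if i = 1 then 1 else 0) - 1) * ((C (pt T.1 0 + 1) + C (v T 0) * X)
            * (C (pt T.1 2 + 1) + C (v T 2) * X) * (C (pt T.1 3 + 1) + C (v T 3) * X))
        + C ((if i = 2 then 1 else 0) - 1) * ((C (pt T.1 0 + 1) + C (v T 0) * X)
            * (C (pt T.1 1 + 1) + C (v T 1) * X) * (C (pt T.1 3 + 1) + C (v T 3) * X))
        + C ((if i = 3 then 1 else 0) - 1) * ((C (pt T.1 0 + 1) + C (v T 0) * X)
            * (C (pt T.1 1 + 1) + C (v T 1) * X) * (C (pt T.1 2 + 1) + C (v T 2) * X)))) := by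
    have hsq : (C (pt T.1 i) : ℚ[X]) ^ 2 = 1 := by rw [← C_pow, pt_sq, C_1]
    rw [map_add, pderiv_F, pderiv_G]
    simp only [map_add, map_sub, map_mul, map_pow, MvPolynomial.aeval_X, hs,
      MvPolynomial.algHom_C, algebraMap_eq, map_ofNat, γ, C_1]
    linear_combination (3 * X ^ 2) * hsq
  rw [e1]
  have e3 : (X : ℚ[X]) ^ 4 = X ^ 3 * X := by ring
  rw [e3]
  refine mul_dvd_mul_left _ ?_
  rw [X_dvd_iff]
  have e2 : 6 * pt T.1 i * v T i + dG (pt T.1) i = 0 := by
    have := pt_sq T.1 i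
    simp only [v]
    linear_combination (- dG (pt T.1) i) * this
  simp only [coeff_add, mul_coeff_zero, coeff_C_zero, coeff_X_zero, mul_zero, add_zero]
  refine Eq.trans ?_ e2
  unfold dG
  ring

theorem stage (N : ℕ) (hN : 4 ≤ N) : ∃ γ f, Stage N γ f := by
  induction N, hN using Nat.le_induction with
  | base => exact base
  | succ N hN ih =>
    obtain ⟨γ, f, h⟩ := ih
    exact step N hN γ f h

end Pool.Agent.helper75.EM
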