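import Mathlib

/-! Basic calculus for polynomial arcs: Taylor expansion to first order along an ideal, the chain
rule, and the relation between the order of `f` and of its partial derivatives along an arc. -/

set_option autoImplicit false

namespace Pool.Agent.helper75.EM

open Polynomial

/-- the polynomial ring in nine variables -/
abbrev S := MvPolynomial (Fin 9) ℚ

theorem taylor {A : Type} [CommRing A] [Algebra ℚ A] (𝔞 : Ideal A) (a b : Fin 9 → A)
    (h : ∀ i, b i - a i ∈ 𝔞) (g : S) :
    MvPolynomial.aeval b g - MvPolynomial.aeval a g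
      - ∑ j, MvPolynomial.aeval a (MvPolynomial.pderiv j g) * (b j - a j) ∈ 𝔞 ^ 2 := by
  have hb : ∀ g : S, ∑ j, MvPolynomial.aeval a (MvPolynomial.pderiv j g) * (b j - a j) ∈ 𝔞 :=
    fun g => Ideal.sum_mem _ fun j _ => Ideal.mul_mem_left _ _ (h j)
  induction g using MvPolynomial.induction_on with
  | C r => simp
  | add p q hp hq =>
    have : MvPolynomial.aeval b (p + q) - MvPolynomial.aeval a (p + q)
      - ∑ j, MvPolynomial.aeval a (MvPolynomial.pderiv j (p + q)) * (b j - a j)
      = (MvPolynomial.aeval b p - MvPolynomial.aeval a p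
          - ∑ j, MvPolynomial.aeval a (MvPolynomial.pderiv j p) * (b j - a j))
        + (MvPolynomial.aeval b q - MvPolynomial.aeval a q
          - ∑ j, MvPolynomial.aeval a (MvPolynomial.pderiv j q) * (b j - a j)) := by
      simp only [map_add, add_mul, Finset.sum_add_distrib]
      ring
    rw [this]
    exact Ideal.add_mem _ hp hq
  | mul_X p i hp =>
    have e1 : ∑ j, MvPolynomial.aeval a (MvPolynomial.pderiv j (p * MvPolynomial.X i))
        * (b j - a j)
        = a i * (∑ j, MvPolynomial.aeval a (MvPolynomial.pderiv j p) * (b j - a j))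
          + MvPolynomial.aeval a p * (b i - a i) := by
      have : ∀ j, MvPolynomial.aeval a (MvPolynomial.pderiv j (p * MvPolynomial.X i))
        * (b j - a j) = a i * (MvPolynomial.aeval a (MvPolynomial.pderiv j p) * (b j - a j))
          + (if j = i then MvPolynomial.aeval a p * (b i - a i) else 0) := by
        intro j
        rw [MvPolynomial.pderiv_mul]
        by_cases hj : j = i
        · subst hj
          simp [MvPolynomial.pderiv_X_self]
          ring
        · rw [MvPolynomial.pderiv_X_of_ne (Ne.symm hj)]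
          simp [hj]
          ring
      rw [Finset.sum_congr rfl fun j _ => this j, Finset.sum_add_distrib, ← Finset.mul_sum]
      simp
    rw [e1]
    have e2 : MvPolynomial.aeval b (p * MvPolynomial.X i)
        - MvPolynomial.aeval a (p * MvPolynomial.X i)
        - (a i * (∑ j, MvPolynomial.aeval a (MvPolynomial.pderiv j p) * (b j - a j))
          + MvPolynomial.aeval a p * (b i - a i))
        = b i * (MvPolynomial.aeval b p - MvPolynomial.aeval a p
          - ∑ j, MvPolynomial.aeval a (MvPolynomial.pderiv j p) * (b j - a j))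
          + (b i - a i) * (∑ j, MvPolynomial.aeval a (MvPolynomial.pderiv j p) * (b j - a j)) := by
      simp only [map_mul, MvPolynomial.aeval_X]
      ring
    rw [e2]
    refine Ideal.add_mem _ (Ideal.mul_mem_left _ _ hp) ?_
    rw [pow_two]
    exact Ideal.mul_mem_mul (h i) (hb p)

/-- chain rule -/
theorem deriv_aeval (γ : Fin 9 → ℚ[X]) (g : S) :
    derivative (MvPolynomial.aeval γ g)
      = ∑ j, MvPolynomial.aeval γ (MvPolynomial.pderiv j g) * derivative (γ j) := by
  induction g using MvPolynomial.induction_on with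
  | C r => simp
  | add p q hp hq => simp only [map_add, add_mul, Finset.sum_add_distrib, hp, hq]
  | mul_X p i hp =>
    have : ∀ j, MvPolynomial.aeval γ (MvPolynomial.pderiv j (p * MvPolynomial.X i))
        * derivative (γ j)
        = γ i * (MvPolynomial.aeval γ (MvPolynomial.pderiv j p) * derivative (γ j))
          + (if j = i then MvPolynomial.aeval γ p * derivative (γ i) else 0) := by
      intro j
      rw [MvPolynomial.pderiv_mul]
      by_cases hj : j = i
      · subst hj
        simp [MvPolynomial.pderiv_X_self]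
        ring
      · rw [MvPolynomial.pderiv_X_of_ne (Ne.symm hj)]
        simp [hj]
        ring
    rw [Finset.sum_congr rfl fun j _ => this j, Finset.sum_add_distrib, ← Finset.mul_sum, ← hp]
    simp
    ring

/-- if all the partial derivatives have order `≥ N` along an arc and `f` vanishes at the origin
of the arc, then `f` has order `≥ N+1` along the arc -/
theorem ord_of_ord_pderiv (γ : Fin 9 → ℚ[X]) (g : S) (N : ℕ)
    (h0 : (MvPolynomial.aeval γ g : ℚ[X]).coeff 0 = 0)
    (h : ∀ j, X ^ N ∣ MvPolynomial.aeval γ (MvPolynomial.pderiv j g)) :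
    X ^ (N + 1) ∣ (MvPolynomial.aeval γ g : ℚ[X]) := by
  rw [X_pow_dvd_iff]
  intro d hd
  rcases Nat.eq_zero_or_pos d with rfl | hd0
  · exact h0
  · obtain ⟨e, rfl⟩ : ∃ e, d = e + 1 := ⟨d - 1, by omega⟩
    have h1 : X ^ N ∣ derivative (MvPolynomial.aeval γ g : ℚ[X]) := by
      rw [deriv_aeval]
      exact Finset.dvd_sum fun j _ => Dvd.dvd.mul_right (h j) _
    have h2 := (X_pow_dvd_iff.1 h1) e (by omega)
    rw [coeff_derivative] at h2
    have h3 : ((e : ℚ) + 1) ≠ 0 := by positivity
    exact (mul_eq_zero.1 h2).resolve_right h3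

/-- coefficient form of the chain rule -/
theorem chain_coeff (γ : Fin 9 → ℚ[X]) (g : S) (N : ℕ)
    (h : ∀ j, X ^ N ∣ MvPolynomial.aeval γ (MvPolynomial.pderiv j g)) :
    ((N : ℚ) + 1) * (MvPolynomial.aeval γ g : ℚ[X]).coeff (N + 1)
      = ∑ j, (MvPolynomial.aeval γ (MvPolynomial.pderiv j g) : ℚ[X]).coeff N
          * (γ j).coeff 1 := by
  have h1 := congrArg (fun p => p.coeff N) (deriv_aeval γ g)
  simp only [coeff_derivative, finset_sum_coeff] at h1
  rw [mul_comm, h1]
  refine Finset.sum_congr rfl fun j _ => ?_
  obtain ⟨q, hq⟩ := h j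
  rw [hq]
  have e1 : (X ^ N * q * derivative (γ j)).coeff N = q.coeff 0 * (γ j).coeff 1 := by
    rw [mul_assoc, coeff_X_pow_mul', if_pos le_rfl, Nat.sub_self, mul_coeff_zero,
      coeff_derivative]
    simp
  have e2 : (X ^ N * q).coeff N = q.coeff 0 := by
    rw [coeff_X_pow_mul', if_pos le_rfl, Nat.sub_self]
  rw [e1, e2]

end Pool.Agent.helper75.EM
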