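import Mathlib

/-! Combinatorics of the sign vectors with four plus signs in dimension nine. -/

set_option autoImplicit false

namespace Pool.Agent.helper75.EM

/-- sign vector of a subset -/
def pt (T : Finset (Fin 9)) (i : Fin 9) : ℚ := if i ∈ T then 1 else -1

/-- the exceptional subset -/
def T0 : Finset (Fin 9) := {0, 1, 2, 3}

def inT (d : Fin 16) (i : Fin 9) : Bool :=
  if i.val < 4 then !(d.val.testBit i.val)
  else if i.val < 8 then d.val.testBit (i.val - 4) else false

def TD (d : Fin 16) : Finset (Fin 9) := Finset.univ.filter (fun i => inT d i = true)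

def ez (d : Fin 16) (i : Fin 9) : ℤ := if inT d i then 1 else -1

def sg (d : Fin 16) : ℤ := ez d 0 * ez d 1 * ez d 2 * ez d 3

/-- the `i`-th partial derivative of `(x₀+s)(x₁+s)(x₂+s)(x₃+s)` at a point with `s = 1` -/
def dGz (e : Fin 9 → ℤ) (i : Fin 9) : ℤ :=
  ((if i = 0 then 1 else 0) - 1) * ((e 1 + 1) * (e 2 + 1) * (e 3 + 1))
  + ((if i = 1 then 1 else 0) - 1) * ((e 0 + 1) * (e 2 + 1) * (e 3 + 1))
  + ((if i = 2 then 1 else 0) - 1) * ((e 0 + 1) * (e 1 + 1) * (e 3 + 1))
  + ((if i = 3 then 1 else 0) - 1) * ((e 0 + 1) * (e 1 + 1) * (e 2 + 1))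

/-- the same over `ℚ` -/
def dG (e : Fin 9 → ℚ) (i : Fin 9) : ℚ :=
  ((if i = 0 then 1 else 0) - 1) * ((e 1 + 1) * (e 2 + 1) * (e 3 + 1))
  + ((if i = 1 then 1 else 0) - 1) * ((e 0 + 1) * (e 2 + 1) * (e 3 + 1))
  + ((if i = 2 then 1 else 0) - 1) * ((e 0 + 1) * (e 1 + 1) * (e 3 + 1))
  + ((if i = 3 then 1 else 0) - 1) * ((e 0 + 1) * (e 1 + 1) * (e 2 + 1))

theorem TD_card : ∀ d : Fin 16, (TD d).card = 4 := by decide +kernel
theorem TD_ne : ∀ d : Fin 16, d ≠ 0 → TD d ≠ T0 := by decide +kernel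
theorem TD_zero : TD 0 = T0 := by decide +kernel
theorem sg_zero : sg 0 = 1 := by decide +kernel

theorem par3 : ∀ i j k : Fin 9, ∑ d : Fin 16, sg d * (ez d i * ez d j * ez d k) = 0 := by
  decide +kernel
theorem par2 : ∀ i j : Fin 9, ∑ d : Fin 16, sg d * (ez d i * ez d j) = 0 := by
  decide +kernel
theorem par1 : ∀ i : Fin 9, ∑ d : Fin 16, sg d * (ez d i) = 0 := by
  decide +kernel
theorem parG : ∀ i : Fin 9, ∑ d : Fin 16, sg d * dGz (ez d) i = 0 := by
  decide +kernel

theorem pt_TD (d : Fin 16) (i : Fin 9) : pt (TD d) i = (ez d i : ℚ) := by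
  unfold pt TD ez
  by_cases h : inT d i = true <;> simp [h]

theorem dG_TD (d : Fin 16) (i : Fin 9) : dG (pt (TD d)) i = (dGz (ez d) i : ℚ) := by
  unfold dG dGz
  simp only [pt_TD]
  push_cast
  rfl

/-- the parity relation: a function with vanishing alternating sum over the cube that vanishes on
all the points of the cube other than the base point vanishes at the base point -/
theorem at_T0 (c : Finset (Fin 9) → ℚ) (h : ∀ T, T.card = 4 → T ≠ T0 → c T = 0)
    (hs : ∑ d : Fin 16, (sg d : ℚ) * c (TD d) = 0) : c T0 = 0 := by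
  have h1 : ∑ d : Fin 16, (sg d : ℚ) * c (TD d) = (sg 0 : ℚ) * c (TD 0) := by
    refine Finset.sum_eq_single (0 : Fin 16) ?_ (by simp)
    intro d _ hd
    rw [h (TD d) (TD_card d) (TD_ne d hd), mul_zero]
  rw [h1, sg_zero, TD_zero] at hs
  simpa using hs

theorem parQ1 (l : Fin 9 → ℚ) : ∑ d : Fin 16, (sg d : ℚ) * ∑ i, l i * pt (TD d) i = 0 := by
  simp only [pt_TD, Finset.mul_sum]
  rw [Finset.sum_comm]
  refine Finset.sum_eq_zero fun i _ => ?_
  have := congrArg (fun z : ℤ => l i * (z : ℚ)) (par1 i)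
  simp only [Int.cast_sum, Int.cast_mul, Finset.mul_sum, Int.cast_zero, mul_zero] at this
  rw [← this]
  exact Finset.sum_congr rfl fun d _ => by ring

theorem parQ2 (A : Fin 9 → Fin 9 → ℚ) :
    ∑ d : Fin 16, (sg d : ℚ) * ∑ i, ∑ j, A i j * pt (TD d) i * pt (TD d) j = 0 := by
  simp only [pt_TD, Finset.mul_sum]
  rw [Finset.sum_comm]
  refine Finset.sum_eq_zero fun i _ => ?_
  rw [Finset.sum_comm]
  refine Finset.sum_eq_zero fun j _ => ?_
  have := congrArg (fun z : ℤ => A i j * (z : ℚ)) (par2 i j)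
  simp only [Int.cast_sum, Int.cast_mul, Finset.mul_sum, Int.cast_zero, mul_zero] at this
  rw [← this]
  exact Finset.sum_congr rfl fun d _ => by ring

theorem parQ3 (B : Fin 9 → Fin 9 → Fin 9 → ℚ) :
    ∑ d : Fin 16, (sg d : ℚ) * ∑ i, ∑ j, ∑ k,
      B i j k * pt (TD d) i * pt (TD d) j * pt (TD d) k = 0 := by
  simp only [pt_TD, Finset.mul_sum]
  rw [Finset.sum_comm]
  refine Finset.sum_eq_zero fun i _ => ?_
  rw [Finset.sum_comm]
  refine Finset.sum_eq_zero fun j _ => ?_
  rw [Finset.sum_comm]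
  refine Finset.sum_eq_zero fun k _ => ?_
  have := congrArg (fun z : ℤ => B i j k * (z : ℚ)) (par3 i j k)
  simp only [Int.cast_sum, Int.cast_mul, Finset.mul_sum, Int.cast_zero, mul_zero] at this
  rw [← this]
  exact Finset.sum_congr rfl fun d _ => by ring

theorem parQG (c : Fin 9 → ℚ) :
    ∑ d : Fin 16, (sg d : ℚ) * ∑ i, c i * dG (pt (TD d)) i = 0 := by
  simp only [dG_TD, Finset.mul_sum]
  rw [Finset.sum_comm]
  refine Finset.sum_eq_zero fun i _ => ?_
  have := congrArg (fun z : ℤ => c i * (z : ℚ)) (parG i)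
  simp only [Int.cast_sum, Int.cast_mul, Finset.mul_sum, Int.cast_zero, mul_zero] at this
  rw [← this]
  exact Finset.sum_congr rfl fun d _ => by ring

theorem sum_pt (T : Finset (Fin 9)) (hT : T.card = 4) : ∑ i, pt T i = -1 := by
  have : ∀ i, pt T i = 2 * (if i ∈ T then 1 else 0) - 1 := by
    intro i; unfold pt; split_ifs <;> norm_num
  rw [Finset.sum_congr rfl fun i _ => this i, Finset.sum_sub_distrib, ← Finset.mul_sum]
  simp [hT]
  norm_num

theorem pt_sq (T : Finset (Fin 9)) (i : Fin 9) : pt T i ^ 2 = 1 := by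
  unfold pt; split_ifs <;> norm_num

theorem swap_pt (T : Finset (Fin 9)) {i j : Fin 9} (hi : i ∈ T) (hj : j ∉ T) (k : Fin 9) :
    pt (insert j (T.erase i)) k
      = pt T k + (if k = j then 2 else 0) - (if k = i then 2 else 0) := by
  have hij : i ≠ j := by rintro rfl; exact hj hi
  unfold pt
  by_cases hki : k = i
  · subst hki
    simp [hij, hi]
    norm_num
  · by_cases hkj : k = j
    · subst hkj
      simp [hj, hki]
      norm_num
    · simp [hki, hkj]

theorem swap_card (T : Finset (Fin 9)) {i j : Fin 9} (hi : i ∈ T) (hj : j ∉ T) :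
    (insert j (T.erase i)).card = T.card := by
  have h1 : j ∉ T.erase i := fun h => hj (Finset.mem_of_mem_erase h)
  rw [Finset.card_insert_of_notMem h1, Finset.card_erase_of_mem hi]
  have : 0 < T.card := Finset.card_pos.2 ⟨i, hi⟩
  omega

theorem swap_sum (T : Finset (Fin 9)) {i j : Fin 9} (hi : i ∈ T) (hj : j ∉ T) (f : Fin 9 → ℚ) :
    ∑ k, f k * pt (insert j (T.erase i)) k = ∑ k, f k * pt T k + 2 * f j - 2 * f i := by
  simp only [swap_pt T hi hj, mul_sub, mul_add, Finset.sum_sub_distrib, Finset.sum_add_distrib,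
    mul_ite, mul_zero, Finset.sum_ite_eq', Finset.mem_univ, if_true]
  ring

theorem exists_T (P Q : Finset (Fin 9)) (hPQ : Disjoint P Q) (hP : P.card ≤ 4)
    (hQ : Q.card ≤ 5) : ∃ T : Finset (Fin 9), T.card = 4 ∧ P ⊆ T ∧ Disjoint T Q := by
  obtain ⟨T, h1, h2, h3⟩ := Finset.exists_subsuperset_card_eq (s := P) (t := Finset.univ \ Q)
    (n := 4) (by
      intro x hx
      simp only [Finset.mem_sdiff, Finset.mem_univ, true_and]
      exact Finset.disjoint_left.1 hPQ hx) hP (by
      rw [Finset.card_sdiff_of_subset (Finset.subset_univ _)]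
      simp only [Finset.card_univ, Fintype.card_fin]
      omega)
  refine ⟨T, h3, h1, ?_⟩
  rw [Finset.disjoint_left]
  intro x hx hxQ
  have := h2 hx
  simp only [Finset.mem_sdiff, Finset.mem_univ, true_and] at this
  exact this hxQ

theorem exists_T1 {i j : Fin 9} (hij : i ≠ j) :
    ∃ T : Finset (Fin 9), T.card = 4 ∧ i ∈ T ∧ j ∉ T := by
  obtain ⟨T, h1, h2, h3⟩ := exists_T {i} {j} (by simpa using hij) (by simp) (by simp)
  exact ⟨T, h1, h2 (by simp), fun h => Finset.disjoint_left.1 h3 h (by simp)⟩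

theorem exists_T2 {i j k l : Fin 9} (hij : i ≠ j) (hil : i ≠ l) (hkj : k ≠ j) (hkl : k ≠ l) :
    ∃ T : Finset (Fin 9), T.card = 4 ∧ i ∈ T ∧ k ∈ T ∧ j ∉ T ∧ l ∉ T := by
  obtain ⟨T, h1, h2, h3⟩ := exists_T {i, k} {j, l} (by
    simp only [Finset.disjoint_insert_left, Finset.disjoint_singleton_left, Finset.mem_insert,
      Finset.mem_singleton, not_or]
    exact ⟨⟨hij, hil⟩, hkj, hkl⟩)
    (Finset.card_le_two.trans (by norm_num)) (Finset.card_le_two.trans (by norm_num))
  exact ⟨T, h1, h2 (by simp), h2 (by simp), fun h => Finset.disjoint_left.1 h3 h (by simp),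
    fun h => Finset.disjoint_left.1 h3 h (by simp)⟩

/-- a linear form vanishing on the points vanishes -/
theorem lin_zero (l : Fin 9 → ℚ) (h : ∀ T : Finset (Fin 9), T.card = 4 → T ≠ T0 →
    ∑ i, l i * pt T i = 0) : ∀ i, l i = 0 := by
  have h0 := at_T0 (fun T => ∑ i, l i * pt T i) h (parQ1 l)
  have h' : ∀ T : Finset (Fin 9), T.card = 4 → ∑ i, l i * pt T i = 0 := by
    intro T hT
    by_cases hT0 : T = T0
    · rw [hT0]; exact h0
    · exact h T hT hT0
  have h2 : ∀ i j, i ≠ j → l i = l j := by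
    intro i j hij
    obtain ⟨T, hT, hi, hj⟩ := exists_T1 hij
    have e1 := h' T hT
    have e2 := h' _ ((swap_card T hi hj).trans hT)
    rw [swap_sum T hi hj, e1] at e2
    linarith
  intro i
  have h3 : ∀ j, l j = l i := fun j => by
    by_cases hj : j = i
    · rw [hj]
    · exact h2 j i hj
  obtain ⟨T, hT, -⟩ : ∃ T : Finset (Fin 9), T.card = 4 ∧ T = T0 := ⟨T0, by decide, rfl⟩
  have e1 := h' T hT
  rw [Finset.sum_congr rfl fun j _ => by rw [h3 j], ← Finset.mul_sum, sum_pt T hT] at e1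
  linarith

/-- swapping two signs in a quadratic form -/
theorem swap_quad (T : Finset (Fin 9)) {i j : Fin 9} (hi : i ∈ T) (hj : j ∉ T)
    (A : Fin 9 → Fin 9 → ℚ) (hA : ∀ a b, A a b = A b a) :
    ∑ a, ∑ b, A a b * pt (insert j (T.erase i)) a * pt (insert j (T.erase i)) b
      = ∑ a, ∑ b, A a b * pt T a * pt T b
        + 4 * ∑ a, (A a j - A a i) * pt T a + 4 * (A j j + A i i - 2 * A i j) := by
  have hij : i ≠ j := by rintro rfl; exact hj hi
  have e1 : ∀ (x : Fin 9 → ℚ), ∑ a, ∑ b, A a b * x a * x b = ∑ a, (∑ b, A a b * x b) * x a := by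
    intro x
    refine Finset.sum_congr rfl fun a _ => ?_
    rw [Finset.sum_mul]
    exact Finset.sum_congr rfl fun b _ => by ring
  rw [e1, e1]
  rw [swap_sum T hi hj (fun a => ∑ b, A a b * pt (insert j (T.erase i)) b)]
  simp only [swap_sum T hi hj]
  simp only [add_mul, sub_mul, Finset.sum_add_distrib, Finset.sum_sub_distrib, mul_assoc,
    ← Finset.mul_sum]
  have e2 : ∑ b, A j b * pt T b = ∑ a, A a j * pt T a :=
    Finset.sum_congr rfl fun b _ => by rw [hA]
  have e3 : ∑ b, A i b * pt T b = ∑ a, A a i * pt T a :=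
    Finset.sum_congr rfl fun b _ => by rw [hA]
  rw [e2, e3, hA j i]
  ring

/-- the quadrics through the points are the diagonal ones -/
theorem quad_sym (A : Fin 9 → Fin 9 → ℚ) (hA : ∀ a b, A a b = A b a)
    (h : ∀ T : Finset (Fin 9), T.card = 4 → T ≠ T0 →
      ∑ i, ∑ j, A i j * pt T i * pt T j = 0) :
    ∃ c : Fin 9 → ℚ, ∀ x : Fin 9 → ℚ,
      ∑ i, ∑ j, A i j * x i * x j = ∑ i, c i * (3 * (x i ^ 2 - (∑ k, x k) ^ 2)) := by
  have h0 := at_T0 (fun T => ∑ i, ∑ j, A i j * pt T i * pt T j) h (parQ2 A)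
  have h' : ∀ T : Finset (Fin 9), T.card = 4 → ∑ i, ∑ j, A i j * pt T i * pt T j = 0 := by
    intro T hT
    by_cases hT0 : T = T0
    · rw [hT0]; exact h0
    · exact h T hT hT0
  have h1 : ∀ i j, ∀ T : Finset (Fin 9), T.card = 4 → i ∈ T → j ∉ T →
      ∑ a, (A a j - A a i) * pt T a = - (A j j + A i i - 2 * A i j) := by
    intro i j T hT hi hj
    have e1 := h' _ ((swap_card T hi hj).trans hT)
    rw [swap_quad T hi hj A hA, h' T hT] at e1
    linarith
  have h2 : ∀ i j k l, i ≠ j → i ≠ l → k ≠ j → k ≠ l → i ≠ k → j ≠ l →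
      A l j - A l i = A k j - A k i := by
    intro i j k l hij hil hkj hkl hik hjl
    obtain ⟨T, hT, hi, hk, hj, hl⟩ := exists_T2 hij hil hkj hkl
    have e1 := h1 i j T hT hi hj
    have e2 := h1 i j _ ((swap_card T hk hl).trans hT)
      (by simp [Finset.mem_insert, Finset.mem_erase, hik, hi])
      (by simp [Finset.mem_insert, Finset.mem_erase, hjl, hj])
    rw [swap_sum T hk hl, e1] at e2
    linarith
  have h3 : ∀ i j k, i ≠ j → i ≠ k → j ≠ k → A k j = A k i := by
    intro i j k hij hik hjk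
    obtain ⟨T, hT, hi, hj⟩ := exists_T1 hij
    have e1 := h1 i j T hT hi hj
    have e2 : ∀ a, (A a j - A a i) * pt T a = (A k j - A k i) * pt T a
        + (if a = i then ((A i j - A i i) - (A k j - A k i)) * pt T i else 0)
        + (if a = j then ((A j j - A j i) - (A k j - A k i)) * pt T j else 0) := by
      intro a
      by_cases hai : a = i
      · subst hai
        simp [hij]
        ring
      · by_cases haj : a = j
        · subst haj
          simp [hai]
          ring
        · have : A a j - A a i = A k j - A k i := by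
            by_cases hak : a = k
            · rw [hak]
            · exact h2 i j k a hij (Ne.symm hai) (Ne.symm hjk) (Ne.symm hak) hik (Ne.symm haj)
          simp [hai, haj, this]
    rw [Finset.sum_congr rfl fun a _ => e2 a, Finset.sum_add_distrib, Finset.sum_add_distrib,
      ← Finset.mul_sum, sum_pt T hT] at e1
    simp only [Finset.sum_ite_eq', Finset.mem_univ, if_true] at e1
    have e3 : pt T i = 1 := by simp [pt, hi]
    have e4 : pt T j = -1 := by simp [pt, hj]
    rw [e3, e4, hA j i] at e1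
    linarith
  have h4 : ∀ j, j ≠ 0 → A 0 j = A 0 1 := by
    intro j hj
    by_cases hj1 : j = 1
    · rw [hj1]
    · exact h3 1 j 0 (Ne.symm hj1) (by decide) hj
  have h5 : ∀ i j, i ≠ j → A i j = A 0 1 := by
    intro i j hij
    by_cases hi : i = 0
    · subst hi
      exact h4 j (Ne.symm hij)
    · have : A i j = A i 0 := by
        by_cases hj : j = 0
        · rw [hj]
        · exact h3 0 j i (Ne.symm hj) (Ne.symm hi) (Ne.symm hij)
      rw [this, hA, h4 i hi]
  have h6 : ∀ x : Fin 9 → ℚ, ∑ i, ∑ j, A i j * x i * x j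
      = A 0 1 * (∑ k, x k) ^ 2 + ∑ i, (A i i - A 0 1) * x i ^ 2 := by
    intro x
    have : ∀ i j, A i j * x i * x j = A 0 1 * (x i * x j)
        + (if j = i then (A i i - A 0 1) * x i ^ 2 else 0) := by
      intro i j
      by_cases hij : j = i
      · subst hij
        simp
        ring
      · rw [h5 i j (Ne.symm hij)]
        simp [hij]
        ring
    simp only [this, Finset.sum_add_distrib, Finset.sum_ite_eq', Finset.mem_univ, if_true]
    rw [pow_two, Finset.sum_mul_sum, Finset.mul_sum]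
    simp only [Finset.mul_sum]
  have h7 : A 0 1 + ∑ i, (A i i - A 0 1) = 0 := by
    have e1 := h' T0 (by decide)
    rw [h6, sum_pt T0 (by decide)] at e1
    simp only [pt_sq] at e1
    simpa using e1
  refine ⟨fun i => (A i i - A 0 1) / 3, fun x => ?_⟩
  rw [h6]
  have e1 : ∀ i, (A i i - A 0 1) / 3 * (3 * (x i ^ 2 - (∑ k, x k) ^ 2))
      = (A i i - A 0 1) * x i ^ 2 - (A i i - A 0 1) * (∑ k, x k) ^ 2 := by
    intro i; ring
  rw [Finset.sum_congr rfl fun i _ => e1 i, Finset.sum_sub_distrib, ← Finset.sum_mul]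
  have e2 : ∑ i, (A i i - A 0 1) = - A 0 1 := by linarith
  rw [e2]
  ring

theorem quad (A : Fin 9 → Fin 9 → ℚ)
    (h : ∀ T : Finset (Fin 9), T.card = 4 → T ≠ T0 →
      ∑ i, ∑ j, A i j * pt T i * pt T j = 0) :
    ∃ c : Fin 9 → ℚ, ∀ x : Fin 9 → ℚ,
      ∑ i, ∑ j, A i j * x i * x j = ∑ i, c i * (3 * (x i ^ 2 - (∑ k, x k) ^ 2)) := by
  have e : ∀ x : Fin 9 → ℚ, ∑ i, ∑ j, (A i j + A j i) / 2 * x i * x j
      = ∑ i, ∑ j, A i j * x i * x j := by
    intro x
    have e1 : ∑ i, ∑ j, (A i j + A j i) / 2 * x i * x j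
        = (∑ i, ∑ j, A i j * x i * x j) / 2 + (∑ i, ∑ j, A j i * x i * x j) / 2 := by
      simp only [Finset.sum_div, ← Finset.sum_add_distrib]
      exact Finset.sum_congr rfl fun i _ => Finset.sum_congr rfl fun j _ => by ring
    have e2 : ∑ i, ∑ j, A j i * x i * x j = ∑ i, ∑ j, A i j * x i * x j := by
      rw [Finset.sum_comm]
      exact Finset.sum_congr rfl fun i _ => Finset.sum_congr rfl fun j _ => by ring
    rw [e1, e2]
    ring
  obtain ⟨c, hc⟩ := quad_sym (fun i j => (A i j + A j i) / 2)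
    (fun a b => by ring) (fun T hT hT0 => by rw [e]; exact h T hT hT0)
  exact ⟨c, fun x => by rw [← e, hc]⟩

/-- no linear syzygies among the quadrics `x_i^2 - s^2` -/
theorem no_syz (M : Fin 9 → Fin 9 → ℚ)
    (h : ∀ x : Fin 9 → ℚ, ∑ i, (x i ^ 2 - (∑ k, x k) ^ 2) * ∑ j, M i j * x j = 0) :
    ∀ i j, M i j = 0 := by
  have h1 : ∀ x : Fin 9 → ℚ, ∑ i, x i ^ 2 * ∑ j, M i j * x j
      = (∑ k, x k) ^ 2 * ∑ j, (∑ i, M i j) * x j := by
    intro x
    have e1 := h x
    simp only [sub_mul, Finset.sum_sub_distrib, ← Finset.mul_sum] at e1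
    have e2 : ∑ i, ∑ j, M i j * x j = ∑ j, (∑ i, M i j) * x j := by
      rw [Finset.sum_comm]
      exact Finset.sum_congr rfl fun j _ => by rw [Finset.sum_mul]
    rw [e2] at e1
    linarith
  have key : ∀ a b c : Fin 9, a ≠ b → a ≠ c → b ≠ c → ∀ α β γ : ℚ,
      α ^ 2 * (M a a * α + M a b * β + M a c * γ) + β ^ 2 * (M b a * α + M b b * β + M b c * γ)
        + γ ^ 2 * (M c a * α + M c b * β + M c c * γ)
      = (α + β + γ) ^ 2 * ((∑ i, M i a) * α + (∑ i, M i b) * β + (∑ i, M i c) * γ) := by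
    intro a b c hab hac hbc α β γ
    have hx := h1 (fun k => (if k = a then α else 0) + (if k = b then β else 0)
      + (if k = c then γ else 0))
    have e1 : ∀ k, ((if k = a then α else 0) + (if k = b then β else 0)
      + (if k = c then γ else 0)) ^ 2
      = (if k = a then α ^ 2 else 0) + (if k = b then β ^ 2 else 0)
      + (if k = c then γ ^ 2 else 0) := by
      intro k
      by_cases hka : k = a
      · subst hka; simp [hab, hac]
      · by_cases hkb : k = b
        · subst hkb; simp [hka, hbc]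
        · simp [hka, hkb]
    simp only [e1, mul_add, add_mul, ite_mul, zero_mul, mul_ite, mul_zero,
      Finset.sum_add_distrib, Finset.sum_ite_eq', Finset.mem_univ, if_true] at hx
    linear_combination hx
  have hΛ : ∀ a, ∑ i, M i a = M a a := by
    intro a
    obtain ⟨b, c, hab, hac, hbc⟩ : ∃ b c : Fin 9, a ≠ b ∧ a ≠ c ∧ b ≠ c := by
      revert a; decide
    have := key a b c hab hac hbc 1 0 0
    linarith
  have h2 : ∀ a b, a ≠ b → M a b = 2 * M a a + M b b := by
    intro a b hab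
    obtain ⟨c, hac, hbc⟩ : ∃ c : Fin 9, a ≠ c ∧ b ≠ c := by
      revert a b; decide
    have e1 := key a b c hab hac hbc 1 1 0
    have e2 := key a b c hab hac hbc 1 (-1) 0
    rw [hΛ, hΛ, hΛ] at e1 e2
    linarith
  have h3 : ∀ a b c, a ≠ b → a ≠ c → b ≠ c → M a a + M b b + M c c = 0 := by
    intro a b c hab hac hbc
    have e1 := key a b c hab hac hbc 1 1 1
    rw [hΛ, hΛ, hΛ, h2 a b hab, h2 a c hac, h2 b a hab.symm, h2 b c hbc, h2 c a hac.symm,
      h2 c b hbc.symm] at e1
    linarith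
  have h4 : ∀ a, M a a = 0 := by
    intro a
    obtain ⟨b, c, d, hab, hac, had, hbc, hbd, hcd⟩ : ∃ b c d : Fin 9,
        a ≠ b ∧ a ≠ c ∧ a ≠ d ∧ b ≠ c ∧ b ≠ d ∧ c ≠ d := by
      revert a; decide
    have e1 := h3 a b c hab hac hbc
    have e2 := h3 a b d hab had hbd
    have e3 := h3 a c d hac had hcd
    have e4 := h3 b c d hbc hbd hcd
    linarith
  intro i j
  by_cases hij : i = j
  · rw [hij]; exact h4 j
  · rw [h2 i j hij, h4, h4]; norm_num

end Pool.Agent.helper75.EM
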