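import Pool.Agent.helper75.EM.Basic
import Pool.Agent.helper75.EM.Comb

/-! Jets of polynomials along arcs through the origin, and the non-membership argument. -/

set_option autoImplicit false

namespace Pool.Agent.helper75.EM

open Polynomial

/-- minus the sum of the variables -/
noncomputable def s : S := -∑ i, MvPolynomial.X i
/-- the cubic -/
noncomputable def F : S := ∑ i, MvPolynomial.X i ^ 3 + s ^ 3
/-- the quartic -/
noncomputable def G : S :=
  (MvPolynomial.X 0 + s) * (MvPolynomial.X 1 + s) * (MvPolynomial.X 2 + s) * (MvPolynomial.X 3 + s)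

/-- the index set: the four-element subsets other than the exceptional one -/
abbrev Γ := {T : Finset (Fin 9) // T.card = 4 ∧ T ≠ T0}

/-- the ideal of the origin -/
noncomputable abbrev p0 : Ideal S := RingHom.ker (MvPolynomial.constantCoeff : S →+* ℚ)

theorem coeff0_aeval (γ : Fin 9 → ℚ[X]) (hγ : ∀ i, (γ i).coeff 0 = 0) (h : S) :
    (MvPolynomial.aeval γ h : ℚ[X]).coeff 0 = MvPolynomial.constantCoeff h := by
  induction h using MvPolynomial.induction_on with
  | C r => simp [MvPolynomial.algHom_C]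
  | add p q hp hq => simp [hp, hq]
  | mul_X p i hp => simp [mul_coeff_zero, hγ]

/-- the three-jet of a polynomial along an arc -/
theorem jet (h : S) : ∃ (l : Fin 9 → ℚ) (A : Fin 9 → Fin 9 → ℚ) (B : Fin 9 → Fin 9 → Fin 9 → ℚ),
    ∀ γ : Fin 9 → ℚ[X], (∀ i, (γ i).coeff 0 = 0) →
      (MvPolynomial.aeval γ h : ℚ[X]).coeff 1 = ∑ i, l i * (γ i).coeff 1 ∧
      (MvPolynomial.aeval γ h : ℚ[X]).coeff 2 = ∑ i, l i * (γ i).coeff 2
        + ∑ i, ∑ j, A i j * (γ i).coeff 1 * (γ j).coeff 1 ∧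
      (MvPolynomial.aeval γ h : ℚ[X]).coeff 3 = ∑ i, l i * (γ i).coeff 3
        + ∑ i, ∑ j, A i j * ((γ i).coeff 1 * (γ j).coeff 2 + (γ i).coeff 2 * (γ j).coeff 1)
        + ∑ i, ∑ j, ∑ k, B i j k * (γ i).coeff 1 * (γ j).coeff 1 * (γ k).coeff 1 := by
  induction h using MvPolynomial.induction_on with
  | C r =>
    refine ⟨0, 0, 0, fun γ _ => ?_⟩
    simp [MvPolynomial.algHom_C, coeff_C]
  | add p q hp hq =>
    obtain ⟨l, A, B, h1⟩ := hp
    obtain ⟨l', A', B', h2⟩ := hq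
    refine ⟨l + l', A + A', B + B', fun γ hγ => ?_⟩
    obtain ⟨a1, a2, a3⟩ := h1 γ hγ
    obtain ⟨b1, b2, b3⟩ := h2 γ hγ
    simp only [map_add, coeff_add, a1, a2, a3, b1, b2, b3, Pi.add_apply, add_mul,
      Finset.sum_add_distrib]
    refine ⟨trivial, by ring, by ring⟩
  | mul_X p m hp =>
    obtain ⟨l, A, B, h1⟩ := hp
    refine ⟨fun i => if i = m then MvPolynomial.constantCoeff p else 0,
      fun i j => if j = m then l i else 0, fun i j k => if k = m then A i j else 0,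
      fun γ hγ => ?_⟩
    obtain ⟨a1, a2, a3⟩ := h1 γ hγ
    have a0 := coeff0_aeval γ hγ p
    simp only [map_mul, MvPolynomial.aeval_X, coeff_mul, Finset.Nat.antidiagonal_succ,
      Finset.Nat.antidiagonal_zero, Finset.map_singleton, Finset.sum_cons, Finset.sum_map,
      Finset.map_cons, Finset.sum_singleton, Function.Embedding.prodMap, Function.Embedding.coeFn_mk,
      Prod.map_apply, Nat.succ_eq_add_one, Function.Embedding.refl_apply, zero_add, a0, a1, a2,
      hγ, mul_zero, add_zero, ite_mul, zero_mul, Finset.sum_ite_eq', Finset.mem_univ, if_true]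
    norm_num [a1, a2, hγ]
    refine ⟨?_, ?_⟩
    · rw [Finset.sum_mul]
    · rw [Finset.sum_mul, add_mul, Finset.sum_mul, Finset.sum_mul]
      simp only [Finset.sum_mul, mul_add, Finset.sum_add_distrib]
      have e1 : ∑ i, l i * ((γ i).coeff 1 * (γ m).coeff 2)
        = ∑ i, l i * (γ i).coeff 1 * (γ m).coeff 2 :=
        Finset.sum_congr rfl fun i _ => by ring
      have e2 : ∑ i, l i * ((γ i).coeff 2 * (γ m).coeff 1)
        = ∑ i, l i * (γ i).coeff 2 * (γ m).coeff 1 :=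
        Finset.sum_congr rfl fun i _ => by ring
      rw [e1, e2]
      ring

/-- arcs: `γ_T = ε_T t + v_T t² + ...`, with `∑ γ_T = -t` -/
structure IsArc (γ : Γ → Fin 9 → ℚ[X]) : Prop where
  c0 : ∀ T i, (γ T i).coeff 0 = 0
  c1 : ∀ T i, (γ T i).coeff 1 = pt T.1 i
  c2 : ∀ T i, (γ T i).coeff 2 = - pt T.1 i * dG (pt T.1) i / 6
  sum : ∀ T, ∑ i, γ T i = -X

/-- linear arcs -/
noncomputable def ln (x : Fin 9 → ℚ) : Fin 9 → ℚ[X] := fun i => C (x i) * X

theorem ln0 (x : Fin 9 → ℚ) (i : Fin 9) : (ln x i).coeff 0 = 0 := by simp [ln]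
theorem ln1 (x : Fin 9 → ℚ) (i : Fin 9) : (ln x i).coeff 1 = x i := by simp [ln]
theorem ln2 (x : Fin 9 → ℚ) (i : Fin 9) : (ln x i).coeff 2 = 0 := by
  simp [ln, coeff_X]
theorem ln3 (x : Fin 9 → ℚ) (i : Fin 9) : (ln x i).coeff 3 = 0 := by
  simp [ln, coeff_X]

/-- polarization of a diagonal form -/
theorem polar (A : Fin 9 → Fin 9 → ℚ) (c : Fin 9 → ℚ)
    (hc : ∀ x : Fin 9 → ℚ,
      ∑ i, ∑ j, A i j * x i * x j = ∑ i, c i * (3 * (x i ^ 2 - (∑ k, x k) ^ 2)))
    (x y : Fin 9 → ℚ) (hy : ∑ k, y k = 0) :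
    ∑ i, ∑ j, A i j * (x i * y j + y i * x j) = ∑ i, c i * (6 * (x i * y i)) := by
  have e1 := hc (fun i => x i + y i)
  have e2 := hc x
  have e3 := hc y
  have e4 : ∑ i, ∑ j, A i j * (x i + y i) * (x j + y j)
      = ∑ i, ∑ j, A i j * x i * x j + ∑ i, ∑ j, A i j * y i * y j
        + ∑ i, ∑ j, A i j * (x i * y j + y i * x j) := by
    simp only [← Finset.sum_add_distrib]
    exact Finset.sum_congr rfl fun i _ => Finset.sum_congr rfl fun j _ => by ring
  have e5 : ∑ i, c i * (3 * ((x i + y i) ^ 2 - (∑ k, (x k + y k)) ^ 2))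
      = ∑ i, c i * (3 * (x i ^ 2 - (∑ k, x k) ^ 2))
        + ∑ i, c i * (3 * (y i ^ 2 - (∑ k, y k) ^ 2)) + ∑ i, c i * (6 * (x i * y i)) := by
    rw [Finset.sum_add_distrib (f := fun k => x k), hy]
    simp only [← Finset.sum_add_distrib]
    exact Finset.sum_congr rfl fun i _ => by ring
  rw [e4, e5, e2, e3] at e1
  linarith

/-- what vanishing along all the arcs says about the three-jet -/
theorem jet_of_vanish (γ : Γ → Fin 9 → ℚ[X]) (hγ : IsArc γ) (h : S)
    (hh : ∀ T, (MvPolynomial.aeval (γ T) h : ℚ[X]) = 0) :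
    ∃ c : Fin 9 → ℚ, MvPolynomial.constantCoeff h = 0 ∧
      (∀ x, (MvPolynomial.aeval (ln x) h : ℚ[X]).coeff 1 = 0) ∧
      (∀ x, (MvPolynomial.aeval (ln x) h : ℚ[X]).coeff 2
        = ∑ i, c i * (3 * (x i ^ 2 - (∑ k, x k) ^ 2))) ∧
      (MvPolynomial.aeval (ln (pt T0)) h : ℚ[X]).coeff 3 = ∑ i, c i * dG (pt T0) i := by
  obtain ⟨l, A, B, hj⟩ := jet h
  have h0 : MvPolynomial.constantCoeff h = 0 := by
    let T1 : Γ := ⟨{0, 1, 2, 4}, by decide, by decide⟩
    rw [← coeff0_aeval (γ T1) (hγ.c0 T1) h, hh T1, coeff_zero]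
  have hl : ∀ i, l i = 0 := by
    refine lin_zero l fun T hT hT0 => ?_
    obtain ⟨a1, -, -⟩ := hj (γ ⟨T, hT, hT0⟩) (hγ.c0 _)
    rw [hh, coeff_zero] at a1
    simp only [hγ.c1] at a1
    exact a1.symm
  obtain ⟨c, hc⟩ := quad A (by
    intro T hT hT0
    obtain ⟨-, a2, -⟩ := hj (γ ⟨T, hT, hT0⟩) (hγ.c0 _)
    rw [hh, coeff_zero] at a2
    simp only [hγ.c1, hl, zero_mul, Finset.sum_const_zero, zero_add] at a2
    exact a2.symm)
  have hB : ∑ i, ∑ j, ∑ k, B i j k * pt T0 i * pt T0 j * pt T0 k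
      - ∑ i, c i * dG (pt T0) i = 0 := by
    refine at_T0 (fun T => ∑ i, ∑ j, ∑ k, B i j k * pt T i * pt T j * pt T k
      - ∑ i, c i * dG (pt T) i) (fun T hT hT0 => ?_) ?_
    · obtain ⟨-, -, a3⟩ := hj (γ ⟨T, hT, hT0⟩) (hγ.c0 _)
      have hs : ∑ i, (γ ⟨T, hT, hT0⟩ i).coeff 2 = 0 := by
        have := congrArg (fun p => p.coeff 2) (hγ.sum ⟨T, hT, hT0⟩)
        simpa [finsetSum_coeff, coeff_X] using this
      have a4 := polar A c hc (fun i => (γ ⟨T, hT, hT0⟩ i).coeff 1)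
        (fun i => (γ ⟨T, hT, hT0⟩ i).coeff 2) hs
      rw [hh, coeff_zero, a4] at a3
      simp only [hγ.c1, hγ.c2, hl, zero_mul, Finset.sum_const_zero, zero_add] at a3
      have a5 : ∑ i, c i * (6 * (pt T i * (-pt T i * dG (pt T) i / 6)))
          = - ∑ i, c i * dG (pt T) i := by
        rw [← Finset.sum_neg_distrib]
        refine Finset.sum_congr rfl fun i _ => ?_
        have := pt_sq T i
        linear_combination (-c i * dG (pt T) i) * this
      rw [a5] at a3
      linarith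
    · simp only [mul_sub, Finset.sum_sub_distrib]
      rw [parQ3, parQG]
      norm_num
  refine ⟨c, h0, fun x => ?_, fun x => ?_, ?_⟩
  · obtain ⟨a1, -, -⟩ := hj (ln x) (ln0 x)
    rw [a1]
    simp [hl]
  · obtain ⟨-, a2, -⟩ := hj (ln x) (ln0 x)
    rw [a2, ← hc]
    simp [hl, ln1]
  · obtain ⟨-, -, a3⟩ := hj (ln (pt T0)) (ln0 _)
    rw [a3]
    simp only [hl, ln1, ln2, ln3, mul_zero, zero_mul, Finset.sum_const_zero, zero_add, add_zero]
    linarith

/-- the invariant carried by the elements of `p0 * J` -/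
theorem mul_jet (γ : Γ → Fin 9 → ℚ[X]) (hγ : IsArc γ) (J : Ideal S)
    (hJ : ∀ h ∈ J, ∀ T, (MvPolynomial.aeval (γ T) h : ℚ[X]) = 0) (z : S) (hz : z ∈ p0 * J) :
    ∃ L : Fin 9 → Fin 9 → ℚ,
      (∀ x, (MvPolynomial.aeval (ln x) z : ℚ[X]).coeff 3
        = ∑ i, (3 * (x i ^ 2 - (∑ k, x k) ^ 2)) * ∑ j, L i j * x j) ∧
      (MvPolynomial.aeval (ln (pt T0)) z : ℚ[X]).coeff 4
        = ∑ i, dG (pt T0) i * ∑ j, L i j * pt T0 j := by
  refine Submodule.mul_induction_on (C := fun z => ∃ L : Fin 9 → Fin 9 → ℚ,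
      (∀ x, (MvPolynomial.aeval (ln x) z : ℚ[X]).coeff 3
        = ∑ i, (3 * (x i ^ 2 - (∑ k, x k) ^ 2)) * ∑ j, L i j * x j) ∧
      (MvPolynomial.aeval (ln (pt T0)) z : ℚ[X]).coeff 4
        = ∑ i, dG (pt T0) i * ∑ j, L i j * pt T0 j) hz ?_ ?_
  · intro a ha h hh
    obtain ⟨c, h0, h1, h2, h3⟩ := jet_of_vanish γ hγ h (hJ h hh)
    obtain ⟨l, A, B, hj⟩ := jet a
    have ha0 : MvPolynomial.constantCoeff a = 0 := by simpa [RingHom.mem_ker] using ha
    refine ⟨fun i j => c i * l j, fun x => ?_, ?_⟩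
    · obtain ⟨a1, a2, a3⟩ := hj (ln x) (ln0 x)
      have b0 := coeff0_aeval (ln x) (ln0 x) h
      have a0 := coeff0_aeval (ln x) (ln0 x) a
      rw [h0] at b0
      rw [ha0] at a0
      rw [map_mul, coeff_mul]
      simp only [Finset.Nat.antidiagonal_succ,
        Finset.Nat.antidiagonal_zero, Finset.map_singleton, Finset.sum_cons,
        Finset.map_cons, Finset.sum_singleton, Function.Embedding.prodMap,
        Function.Embedding.coeFn_mk, Prod.map_apply, Nat.succ_eq_add_one,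
        Function.Embedding.refl_apply]
      norm_num [a0, b0, h1, h2]
      rw [a1]
      simp only [ln1]
      rw [Finset.mul_sum]
      refine Finset.sum_congr rfl fun i _ => ?_
      rw [Finset.sum_mul, Finset.mul_sum]
      exact Finset.sum_congr rfl fun j _ => by ring
    · obtain ⟨a1, a2, a3⟩ := hj (ln (pt T0)) (ln0 _)
      have b0 := coeff0_aeval (ln (pt T0)) (ln0 _) h
      have a0 := coeff0_aeval (ln (pt T0)) (ln0 _) a
      rw [h0] at b0
      rw [ha0] at a0
      have h2' : (MvPolynomial.aeval (ln (pt T0)) h : ℚ[X]).coeff 2 = 0 := by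
        rw [h2, sum_pt T0 (by decide)]
        simp [pt_sq]
      rw [map_mul, coeff_mul]
      simp only [Finset.Nat.antidiagonal_succ,
        Finset.Nat.antidiagonal_zero, Finset.map_singleton, Finset.sum_cons,
        Finset.map_cons, Finset.sum_singleton, Function.Embedding.prodMap,
        Function.Embedding.coeFn_mk, Prod.map_apply, Nat.succ_eq_add_one,
        Function.Embedding.refl_apply]
      norm_num [a0, b0, h1, h2', h3]
      rw [a1]
      simp only [ln1]
      rw [Finset.mul_sum]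
      refine Finset.sum_congr rfl fun i _ => ?_
      rw [Finset.sum_mul, Finset.mul_sum]
      exact Finset.sum_congr rfl fun j _ => by ring
  · intro x y hx hy
    obtain ⟨L1, a1, a2⟩ := hx
    obtain ⟨L2, b1, b2⟩ := hy
    refine ⟨L1 + L2, fun x => ?_, ?_⟩
    · rw [map_add, coeff_add, a1, b1]
      simp only [Pi.add_apply, add_mul, Finset.sum_add_distrib, mul_add]
    · rw [map_add, coeff_add, a2, b2]
      simp only [Pi.add_apply, add_mul, Finset.sum_add_distrib, mul_add]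

theorem dG_T0 : ∑ i, dG (pt T0) i * pt T0 i = 64 := by
  have h0 : pt T0 0 = 1 := by simp [pt, T0]
  have h1 : pt T0 1 = 1 := by simp [pt, T0]
  have h2 : pt T0 2 = 1 := by simp [pt, T0]
  have h3 : pt T0 3 = 1 := by simp [pt, T0]
  have h4 : pt T0 4 = -1 := by simp [pt, T0]
  have h5 : pt T0 5 = -1 := by simp [pt, T0]
  have h6 : pt T0 6 = -1 := by simp [pt, T0]
  have h7 : pt T0 7 = -1 := by simp [pt, T0]
  have h8 : pt T0 8 = -1 := by simp [pt, T0]
  have e : ∀ i : Fin 9, dG (pt T0) i = 8 * ((if i = 0 then 1 else 0) - 1)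
    + 8 * ((if i = 1 then 1 else 0) - 1) + 8 * ((if i = 2 then 1 else 0) - 1)
    + 8 * ((if i = 3 then 1 else 0) - 1) := by
    intro i
    unfold dG
    rw [h0, h1, h2, h3]
    ring
  simp only [e, Fin.sum_univ_succ, Fin.sum_univ_zero]
  have g : ∀ (j : Fin 9), True := fun _ => trivial
  simp [Fin.succ] 
  norm_num [h0, h1, h2, h3, h4, h5, h6, h7, h8]

/-- the non-membership statement -/
theorem nonmem (γ : Γ → Fin 9 → ℚ[X]) (hγ : IsArc γ) (J : Ideal S)
    (hJ : ∀ h ∈ J, ∀ T, (MvPolynomial.aeval (γ T) h : ℚ[X]) = 0) (z : S) (hz : z ∈ p0 * J)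
    (β : ℚ)
    (h3 : ∀ x, (MvPolynomial.aeval (ln x) z : ℚ[X]).coeff 3
      = β * (∑ i, x i ^ 3 - (∑ i, x i) ^ 3))
    (h4 : (MvPolynomial.aeval (ln (pt T0)) z : ℚ[X]).coeff 4 = 16 * β) : β = 0 := by
  obtain ⟨L, a3, a4⟩ := mul_jet γ hγ J hJ z hz
  have hM := no_syz (fun i j => 3 * L i j - (if i = j then β else 0)) (by
    intro x
    have e1 := a3 x
    rw [h3] at e1
    have e2 : ∀ i, ∑ j, (3 * L i j - (if i = j then β else 0)) * x j
        = 3 * ∑ j, L i j * x j - β * x i := by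
      intro i
      simp only [sub_mul, Finset.sum_sub_distrib, ite_mul, zero_mul, Finset.sum_ite_eq,
        Finset.mem_univ, if_true, Finset.mul_sum]
      congr 1
      exact Finset.sum_congr rfl fun j _ => by ring
    simp only [e2, mul_sub, Finset.sum_sub_distrib]
    have e3 : ∑ i, (x i ^ 2 - (∑ k, x k) ^ 2) * (3 * ∑ j, L i j * x j)
        = ∑ i, (3 * (x i ^ 2 - (∑ k, x k) ^ 2)) * ∑ j, L i j * x j :=
      Finset.sum_congr rfl fun i _ => by ring
    rw [e3, ← e1]
    have e4 : ∑ i, (x i ^ 2 - (∑ k, x k) ^ 2) * (β * x i)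
        = β * ∑ i, x i ^ 3 - β * (∑ k, x k) ^ 2 * ∑ i, x i := by
      rw [Finset.mul_sum, Finset.mul_sum, ← Finset.sum_sub_distrib]
      exact Finset.sum_congr rfl fun i _ => by ring
    rw [e4]
    ring)
  have hL : ∀ i, ∑ j, L i j * pt T0 j = β / 3 * pt T0 i := by
    intro i
    have : ∀ j, L i j * pt T0 j = if i = j then β / 3 * pt T0 j else 0 := by
      intro j
      have := hM i j
      split_ifs with hij
      · simp only [hij, if_true] at this ⊢
        linear_combination (pt T0 j / 3) * this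
      · simp only [hij, if_false] at this
        linear_combination (pt T0 j / 3) * this
    rw [Finset.sum_congr rfl fun j _ => this j]
    simp
  rw [h4] at a4
  simp only [hL] at a4
  have e5 : ∑ i, dG (pt T0) i * (β / 3 * pt T0 i) = β / 3 * 64 := by
    rw [← dG_T0, Finset.mul_sum]
    exact Finset.sum_congr rfl fun i _ => by ring
  rw [e5] at a4
  linarith

end Pool.Agent.helper75.EM
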